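import Pool.Agent.X24.RZ.Join
import Pool.Agent.H249R2.PM.Round

/-!
# Graphs with at most `2 r + 2` vertices of odd degree: three disjoint postman joins, one of them light
-/

set_option autoImplicit false
set_option linter.unusedSectionVars false

namespace Pool.Agent.X24.RZ

open Finset Pool.Agent.H185F
open Pool.Agent.H239R2.Cover (ecut mem_ecut)
open Pool.Agent.H249R2.PM (Cr IsPM Fr)

section
variable {O F : Type} [Fintype O] [DecidableEq O] [Fintype F] [DecidableEq F]

theorem pm_sub {a b : F → O} {M : Finset F} (T : Finset O) :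
    (ecut (fun e : {e // e ∈ M} => a e.1) (fun e => b e.1) T).card = (M.filter (Cr a b T)).card := by
  rw [← card_map (Function.Embedding.subtype (· ∈ M))]
  congr 1
  ext e
  rw [mem_map, mem_filter]
  constructor
  · rintro ⟨x, hx, rfl⟩
    rw [mem_ecut] at hx
    exact ⟨x.2, hx⟩
  · rintro ⟨h1, h2⟩
    exact ⟨⟨e, h1⟩, by rw [mem_ecut]; exact h2, rfl⟩

theorem pm_odd {a b : F → O} {M : Finset F} (hM : IsPM a b M) {S : Finset O} (hS : Odd S.card) :
    Odd (M.filter (Cr a b S)).card := by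
  have h1 := parity_sum (fun e : {e // e ∈ M} => a e.1) (fun e => b e.1) S
  rw [pm_sub, sum_congr rfl fun x _ => (pm_sub (M := M) {x}).trans (hM.deg x), sum_const,
    smul_eq_mul, mul_one] at h1
  rw [Nat.odd_iff] at hS ⊢
  omega

theorem pm_le {a b : F → O} {M : Finset F} (hM : IsPM a b M) (S : Finset O) :
    (M.filter (Cr a b S)).card ≤ S.card := by
  have h1 : M.filter (Cr a b S) ⊆ S.biUnion fun v => M.filter (Cr a b {v}) := by
    intro e he
    rw [mem_filter] at he
    rw [mem_biUnion]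
    have h2 := he.2
    unfold Cr at h2
    by_cases h3 : a e ∈ S
    · refine ⟨a e, h3, mem_filter.2 ⟨he.1, ?_⟩⟩
      unfold Cr
      rw [mem_singleton, mem_singleton]
      intro h4
      exact h2 ⟨fun _ => (h4.1 rfl).symm ▸ h3, fun _ => h3⟩
    · have h5 : b e ∈ S := by
        by_contra h5
        exact h2 ⟨fun h => absurd h h3, fun h => absurd h h5⟩
      refine ⟨b e, h5, mem_filter.2 ⟨he.1, ?_⟩⟩
      unfold Cr
      rw [mem_singleton, mem_singleton]
      intro h4
      exact h3 ((h4.2 rfl).symm ▸ h5)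
  refine le_trans (card_le_card h1) (le_trans card_biUnion_le ?_)
  rw [sum_congr rfl fun v _ => hM.deg v, sum_const, smul_eq_mul, mul_one]

theorem pm_half {a b : F → O} {M : Finset F} (hM : IsPM a b M) (S : Finset O) :
    2 * (M.filter (Cr a b S)).card ≤ Fintype.card O := by
  have h1 := pm_le hM S
  have h2 := pm_le hM Sᶜ
  have h3 : M.filter (Cr a b Sᶜ) = M.filter (Cr a b S) := by
    ext e
    rw [mem_filter, mem_filter, Pool.Agent.H249R2.PM.Cr_compl]
  rw [h3, card_compl] at h2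
  have h4 := card_le_univ S
  omega

/-- a light perfect matching which meets every tight cut once -/
theorem light {r : ℕ} (hr : 1 ≤ r) {a b : F → O} (hne : ∀ e, a e ≠ b e)
    (hO : Even (Fintype.card O)) (hdeg : ∀ v, (univ.filter (Cr a b {v})).card = r)
    (hodd : ∀ S : Finset O, Odd S.card → r ≤ (univ.filter (Cr a b S)).card)
    (w : F → ℝ) (hw : ∀ e, 0 ≤ w e) :
    ∃ M, IsPM a b M ∧ (r : ℝ) * ∑ e ∈ M, w e ≤ ∑ e, w e ∧
      ∀ S : Finset O, Odd S.card → (univ.filter (Cr a b S)).card = r →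
        (M.filter (Cr a b S)).card = 1 := by
  classical
  have hr0 : (0 : ℝ) < r := by exact_mod_cast hr
  have hcut : ∀ S : Finset O, Pool.Agent.H249R2.PM.cut a b (fun _ => (1 : ℝ) / r) S =
      ((univ.filter (Cr a b S)).card : ℝ) / r := by
    intro S
    unfold Pool.Agent.H249R2.PM.cut
    rw [sum_const, nsmul_eq_mul, mul_one_div]
  have hfr : Fr a b (fun _ => (1 : ℝ) / r) := by
    refine ⟨fun _ => by positivity, fun v => ?_, fun S hS => ?_⟩
    · rw [hcut, hdeg]
      exact div_self hr0.ne'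
    · rw [hcut, le_div_iff₀ hr0, one_mul]
      exact_mod_cast hodd S hS
  let τ : Finset (Finset O) := univ.filter fun S => Odd S.card ∧ (univ.filter (Cr a b S)).card = r
  have hW : 0 ≤ ∑ e, w e := sum_nonneg fun e _ => hw e
  obtain ⟨M, hM, -, hc⟩ := Pool.Agent.H249R2.PM.round (Fintype.card O) O rfl hO a b
    (fun _ => (1 : ℝ) / r) (fun e => w e + (∑ g, w g + 1) * ∑ S ∈ τ, if Cr a b S e then 1 else 0) hfr
  have e0 : univ.filter (fun e => a e ≠ b e) = univ := by
    ext e
    simp [hne e]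
  have e1 : ∑ e ∈ M, (w e + (∑ g, w g + 1) * ∑ S ∈ τ, if Cr a b S e then (1 : ℝ) else 0) =
      ∑ e ∈ M, w e + (∑ g, w g + 1) * ∑ S ∈ τ, ((M.filter (Cr a b S)).card : ℝ) := by
    rw [sum_add_distrib, ← mul_sum, sum_comm]
    congr 2
    refine sum_congr rfl fun S _ => ?_
    rw [sum_boole]
  have e2 : ∑ e, (w e + (∑ g, w g + 1) * ∑ S ∈ τ, if Cr a b S e then (1 : ℝ) else 0) * (1 / r) =
      (∑ e, w e) / r + (∑ g, w g + 1) * τ.card := by
    rw [← sum_mul, sum_add_distrib, ← mul_sum, sum_comm]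
    have e3 : ∑ S ∈ τ, ∑ e, (if Cr a b S e then (1 : ℝ) else 0) = τ.card * r := by
      rw [← nsmul_eq_mul, ← sum_const]
      refine sum_congr rfl fun S hS => ?_
      rw [sum_boole, (mem_filter.1 hS).2.2]
    rw [e3]
    field_simp
  rw [e0, e1, e2] at hc
  have h1 : ∀ S ∈ τ, (1 : ℝ) ≤ ((M.filter (Cr a b S)).card : ℝ) := by
    intro S hS
    have := (pm_odd hM (mem_filter.1 hS).2.1).pos
    exact_mod_cast this
  have h2 : (τ.card : ℝ) ≤ ∑ S ∈ τ, ((M.filter (Cr a b S)).card : ℝ) := by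
    have := sum_le_sum h1
    rw [sum_const, nsmul_eq_mul, mul_one] at this
    exact this
  have hC : (0 : ℝ) < ∑ g, w g + 1 := by linarith
  refine ⟨M, hM, ?_, ?_⟩
  · have h3 := mul_le_mul_of_nonneg_left h2 hC.le
    have h4 : ∑ e ∈ M, w e ≤ (∑ e, w e) / r := by linarith
    rw [le_div_iff₀ hr0] at h4
    linarith
  · intro S0 hS0 hS1
    have hS : S0 ∈ τ := mem_filter.2 ⟨mem_univ _, hS0, hS1⟩
    by_contra hne1
    have h3 : 2 ≤ (M.filter (Cr a b S0)).card := by
      have := (pm_odd hM hS0).pos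
      omega
    have h4 : (τ.card : ℝ) + 1 ≤ ∑ S ∈ τ, ((M.filter (Cr a b S)).card : ℝ) := by
      rw [← sum_erase_add _ _ hS]
      have h5 : ((τ.erase S0).card : ℝ) ≤ ∑ S ∈ τ.erase S0, ((M.filter (Cr a b S)).card : ℝ) := by
        have := sum_le_sum (s := τ.erase S0) fun S hS => h1 S (mem_of_mem_erase hS)
        rw [sum_const, nsmul_eq_mul, mul_one] at this
        exact this
      have h6 : ((τ.erase S0).card : ℝ) + 1 = τ.card := by
        have := card_erase_add_one hS
        exact_mod_cast this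
      have h7 : (2 : ℝ) ≤ ((M.filter (Cr a b S0)).card : ℝ) := by exact_mod_cast h3
      linarith
    have h5 := mul_le_mul_of_nonneg_left h4 hC.le
    have h6 : 0 ≤ ∑ e ∈ M, w e := sum_nonneg fun e _ => hw e
    have h7 : (∑ e, w e) / r ≤ ∑ e, w e := div_le_self hW (by exact_mod_cast hr)
    nlinarith

end

end Pool.Agent.X24.RZ
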