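import Pool.Agent.X24.RZ.Avg

/-!
# Graphs with at most `2 r + 2` vertices of odd degree: the base case and the theorem
-/

set_option autoImplicit false
set_option linter.unusedSectionVars false

namespace Pool.Agent.X24.RZ

open Finset Pool.Agent.H185F
open Pool.Agent.H239R2.Cover (ecut mem_ecut)
open Pool.Agent.H249R2.PM (Cr IsPM Fr)

variable {V E : Type} [Fintype V] [DecidableEq V] [Fintype E] [DecidableEq E]

theorem base_avg {r : ℕ} (hr : Odd r) (hr3 : 3 ≤ r) (s d : E → V) (hcon : OddConn r s d)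
    (hreg : Reg r (2 * r + 2) s d)
    (hiso : ∀ y, Even (ecut s d {y}).card → ecut s d {y} = ∅) : Sh r s d := by
  classical
  intro w hw
  have hempty : ∀ v, v ∉ odds s d → ecut s d {v} = ∅ := by
    intro v hv
    apply hiso
    rw [← Nat.not_odd_iff_even]
    exact fun h => hv (mem_filter.2 ⟨mem_univ _, h⟩)
  have hmem : ∀ e v, e ∈ ecut s d {v} → v ∈ odds s d := by
    intro e v he
    by_contra hv
    rw [hempty v hv] at he
    exact absurd he (notMem_empty _)
  have hs1 : ∀ e : {e : E // s e ≠ d e}, s e.1 ∈ odds s d := by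
    intro e
    refine hmem e.1 _ ?_
    rw [mem_ecut, mem_singleton, mem_singleton]
    exact fun h => e.2 (h.1 rfl).symm
  have hd1 : ∀ e : {e : E // s e ≠ d e}, d e.1 ∈ odds s d := by
    intro e
    refine hmem e.1 _ ?_
    rw [mem_ecut, mem_singleton, mem_singleton]
    exact fun h => e.2 (h.2 rfl)
  let a : {e : E // s e ≠ d e} → {x // x ∈ odds s d} := fun e => ⟨s e.1, hs1 e⟩
  let b : {e : E // s e ≠ d e} → {x // x ∈ odds s d} := fun e => ⟨d e.1, hd1 e⟩
  let R : Finset V → Finset {x // x ∈ odds s d} := fun X => univ.filter fun v => v.1 ∈ X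
  have hCr : ∀ (X : Finset V) (e : {e : E // s e ≠ d e}), Cr a b (R X) e ↔ e.1 ∈ ecut s d X := by
    intro X e
    rw [mem_ecut]
    unfold Cr
    simp [R, a, b]
  have hall : ∀ X, (univ.filter (Cr a b (R X))).card = (ecut s d X).card := by
    intro X
    rw [← card_map (Function.Embedding.subtype (fun e : E => s e ≠ d e))]
    congr 1
    ext e
    rw [mem_map]
    constructor
    · rintro ⟨x, hx, rfl⟩
      exact (hCr X x).1 (mem_filter.1 hx).2
    · intro he
      have h1 : s e ≠ d e := by
        intro h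
        rw [mem_ecut] at he
        exact he (by rw [h])
      exact ⟨⟨e, h1⟩, mem_filter.2 ⟨mem_univ _, (hCr X ⟨e, h1⟩).2 he⟩, rfl⟩
  have hR : ∀ S : Finset {x // x ∈ odds s d}, R (S.map (Function.Embedding.subtype _)) = S := by
    intro S
    ext v
    simp [R]
  have hRc : ∀ X, (R X).card = (odds s d ∩ X).card := by
    intro X
    rw [← card_map (Function.Embedding.subtype (· ∈ odds s d))]
    congr 1
    ext v
    rw [mem_map, mem_inter]
    constructor
    · rintro ⟨x, hx, rfl⟩
      exact ⟨x.2, (mem_filter.1 hx).2⟩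
    · rintro ⟨h1, h2⟩
      exact ⟨⟨v, h1⟩, mem_filter.2 ⟨mem_univ _, h2⟩, rfl⟩
  have hpar : ∀ X : Finset V, Odd (odds s d ∩ X).card ↔ Odd (ecut s d X).card := by
    intro X
    have h1 := parity_sum s d X
    have h2 := Finset.odd_sum_iff_odd_card_odd (s := X) fun x => (ecut s d {x}).card
    have h3 : (X.filter fun x => Odd (ecut s d {x}).card) = odds s d ∩ X := by
      ext x
      simp only [mem_filter, mem_inter, odds, mem_univ, true_and]
      exact And.comm
    rw [h3] at h2
    rw [← h2, Nat.odd_iff, Nat.odd_iff, h1]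
  have hcardO : Fintype.card {x // x ∈ odds s d} = (odds s d).card := Fintype.card_coe _
  have hO : Even (Fintype.card {x // x ∈ odds s d}) := by
    rw [hcardO, ← Nat.not_odd_iff_even]
    intro h
    have h1 := (hpar univ).1 (by rw [inter_univ]; exact h)
    have h2 : ecut s d univ = ∅ := by
      ext g
      simp [mem_ecut]
    rw [h2, card_empty] at h1
    exact absurd h1 (by decide)
  have hdeg2 : ∀ v, (univ.filter (Cr a b {v})).card = r := by
    intro v
    have h1 : ({v} : Finset {x // x ∈ odds s d}) = R {v.1} := by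
      ext u
      rw [mem_singleton]
      show u = v ↔ u ∈ univ.filter fun v' : {x // x ∈ odds s d} => v'.1 ∈ ({v.1} : Finset V)
      rw [mem_filter, mem_singleton]
      exact ⟨fun h => ⟨mem_univ _, congrArg Subtype.val h⟩, fun h => Subtype.ext h.2⟩
    rw [h1, hall]
    exact hreg.1 v.1 (mem_filter.1 v.2).2
  have hodd2 : ∀ S : Finset {x // x ∈ odds s d}, Odd S.card → r ≤ (univ.filter (Cr a b S)).card := by
    intro S hS
    have h1 := hR S
    rw [← h1, hall]
    apply hcon
    rw [← hpar, ← hRc, h1]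
    exact hS
  obtain ⟨M, hM, hMw, hMt⟩ := light (a := a) (b := b) hr.pos
    (fun e h => e.2 (congrArg Subtype.val h)) hO hdeg2 hodd2 (fun e => w e.1) (fun e => hw e.1)
  let J : Finset E := M.map (Function.Embedding.subtype _)
  have hJ : ∀ X, (J ∩ ecut s d X).card = (M.filter (Cr a b (R X))).card := by
    intro X
    rw [← card_map (Function.Embedding.subtype (fun e : E => s e ≠ d e)) (s := M.filter _)]
    congr 1
    ext e
    rw [mem_inter, mem_map, mem_map]
    constructor
    · rintro ⟨⟨x, hx, rfl⟩, h⟩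
      exact ⟨x, mem_filter.2 ⟨hx, (hCr X x).2 h⟩, rfl⟩
    · rintro ⟨x, hx, rfl⟩
      exact ⟨⟨x, (mem_filter.1 hx).1, rfl⟩, (hCr X x).1 (mem_filter.1 hx).2⟩
  obtain ⟨x, hx1, hx2⟩ := tjoin s d J (odds s d) (by
    intro X hX
    by_contra hcon2
    push Not at hcon2
    have h1 : J ∩ ecut s d X = ecut s d X := inter_eq_right.2 hcon2
    have h2 := hJ X
    rw [h1] at h2
    have h3 := (hpar X).1 hX
    have h4 := hcon X h3
    have h5 := pm_half hM (R X)
    rw [← h2, hcardO] at h5
    have h6 := hreg.2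
    have h7 : (ecut s d X).card = r := by
      change (odds s d).card ≤ 2 * r + 2 at h6
      obtain ⟨p, hp⟩ := h3
      obtain ⟨q, hq⟩ := hr
      omega
    have h8 := hMt (R X) (by rw [hRc]; exact hX) (by rw [hall, h7])
    rw [← h2, h7] at h8
    omega)
  have hT : ∀ v, ∑ g, 1 * hh s d g v = if v ∈ odds s d then (1 : ZMod 2) else 0 := by
    intro v
    rw [sum_hh (fun _ => 1)]
    by_cases hv : v ∈ odds s d
    · rw [if_pos hv, sum_const, nsmul_eq_mul, mul_one]
      exact (ZMod.natCast_eq_one_iff_odd).2 (mem_filter.1 hv).2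
    · rw [if_neg hv, hempty v hv, sum_empty]
  have hJ1 : ∀ v, ∑ g, (if g ∈ J then (1 : ZMod 2) else 0) * hh s d g v =
      if v ∈ odds s d then (1 : ZMod 2) else 0 := by
    intro v
    rw [sum_hh, sum_ite_mem, inter_comm]
    by_cases hv : v ∈ odds s d
    · have h1 : ({(⟨v, hv⟩ : {x // x ∈ odds s d})} : Finset {x // x ∈ odds s d}) = R {v} := by
        ext u
        rw [mem_singleton]
        show u = ⟨v, hv⟩ ↔ u ∈ univ.filter fun v' : {x // x ∈ odds s d} => v'.1 ∈ ({v} : Finset V)
        rw [mem_filter, mem_singleton]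
        exact ⟨fun h => ⟨mem_univ _, congrArg Subtype.val h⟩, fun h => Subtype.ext h.2⟩
      rw [if_pos hv, sum_const, nsmul_eq_mul, mul_one, hJ, ← h1, hM.deg]
      rfl
    · rw [if_neg hv, hempty v hv, inter_empty, sum_empty]
  have two : ∀ c : ZMod 2, c = 0 ∨ c = 1 := by decide
  refine ⟨fun g => if g ∈ J then 0 else if x g = 1 then 1 else 2, fun v j => ?_, ?_⟩
  · rw [hT v]
    fin_cases j
    · refine Eq.trans (sum_congr rfl fun g _ => ?_) (hJ1 v)
      by_cases h1 : g ∈ J
      · simp [h1]
      · rcases two (x g) with h2 | h2 <;> simp [h1, h2]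
    · refine Eq.trans (sum_congr rfl fun g _ => ?_) (hx2 v)
      by_cases h1 : g ∈ J
      · simp [h1, hx1 g h1]
      · rcases two (x g) with h2 | h2 <;> simp [h1, h2]
    · have h5 : ∑ g, (1 * hh s d g v - (if g ∈ J then (1 : ZMod 2) else 0) * hh s d g v -
          x g * hh s d g v) = if v ∈ odds s d then (1 : ZMod 2) else 0 := by
        rw [sum_sub_distrib, sum_sub_distrib, hT v, hJ1 v, hx2 v]
        split_ifs <;> decide
      refine Eq.trans (sum_congr rfl fun g _ => ?_) h5
      by_cases h1 : g ∈ J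
      · simp [h1, hx1 g h1]
      · rcases two (x g) with h2 | h2 <;> simp [h1, h2]
  · have h1 : ∑ g, (if (if g ∈ J then (0 : Fin 3) else if x g = 1 then 1 else 2) = 0 then w g else 0)
        = ∑ e ∈ M, w e.1 := by
      have h2 : ∑ e ∈ M, w e.1 = ∑ g ∈ J, w g := by
        rw [sum_map]
        rfl
      rw [h2, ← sum_filter_add_sum_filter_not univ (· ∈ J)]
      have e1 : univ.filter (· ∈ J) = J := by ext g; simp
      have e2 : ∑ g ∈ univ.filter (fun g => g ∉ J),
          (if (if g ∈ J then (0 : Fin 3) else if x g = 1 then 1 else 2) = 0 then w g else 0) = 0 := by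
        refine sum_eq_zero fun g hg => ?_
        rw [if_neg (mem_filter.1 hg).2]
        split_ifs with h3 h4 h4
        · exact absurd h4 (by decide)
        · rfl
        · exact absurd h4 (by decide)
        · rfl
      rw [e1, e2, add_zero]
      refine sum_congr rfl fun g hg => ?_
      rw [if_pos hg, if_pos rfl]
    show (r : ℝ) * ∑ g, (if (if g ∈ J then (0 : Fin 3) else if x g = 1 then 1 else 2) = 0
      then w g else 0) ≤ ∑ g, w g
    rw [h1]
    refine le_trans hMw ?_
    have h3 : ∑ e : {e : E // s e ≠ d e}, w e.1 = ∑ g ∈ univ.filter (fun g => s g ≠ d g), w g := by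
      rw [← sum_subtype_eq_sum_filter]
      simp
    rw [h3]
    exact sum_le_sum_of_subset_of_nonneg (subset_univ _) fun g _ _ => hw g

theorem sh_avg {r : ℕ} (hr : Odd r) (hr3 : 3 ≤ r) (s d : E → V) (hcon : OddConn r s d)
    (hN : (univ.filter fun x => Odd (ecut s d {x}).card).card ≤ 2 * r + 2) : Sh r s d :=
  sh_of hr (fun s d h1 h2 h3 => base_avg hr hr3 s d h1 h2 h3) s d hcon hN

end Pool.Agent.X24.RZ
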