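import Pool.Agent.X24.RZ.Split
import Pool.Agent.W315.LB.Final

/-!
# Partitions into postman joins from edge colourings of `r`-graphs with at most eight vertices
-/

set_option autoImplicit false
set_option linter.unusedSectionVars false

namespace Pool.Agent.X24.RZ

open Finset Pool.Agent.H185F H76TW
open Pool.Agent.H239R2.Cover (ecut mem_ecut)

variable {V E : Type} [Fintype V] [DecidableEq V] [Fintype E] [DecidableEq E]

/-- `e` joins `u` and `v` -/
abbrev Jo (s d : E → V) (e : E) (u v : V) : Prop := (s e = u ∧ d e = v) ∨ (s e = v ∧ d e = u)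

/-- multiplicities -/
def mu (s d : E → V) (u v : V) : ℕ :=
  if u = v then 0 else (univ.filter fun e => Jo s d e u v).card

theorem ecut_card (s d : E → V) (Y : Finset V) : (ecut s d Y).card = H76FC.cut (mu s d) Y := by
  unfold H76FC.cut
  have hmaps : ∀ e ∈ ecut s d Y,
      (if s e ∈ Y then (s e, d e) else (d e, s e)) ∈ Y ×ˢ Yᶜ := by
    intro e he
    rw [mem_ecut] at he
    rw [mem_product]
    by_cases h : s e ∈ Y
    · rw [if_pos h]
      exact ⟨h, mem_compl.2 fun h2 => he ⟨fun _ => h2, fun _ => h⟩⟩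
    · rw [if_neg h]
      refine ⟨?_, mem_compl.2 h⟩
      by_contra h2
      exact he ⟨fun h3 => absurd h3 h, fun h3 => absurd h3 h2⟩
  rw [card_eq_sum_card_fiberwise hmaps, sum_product]
  refine sum_congr rfl fun u hu => sum_congr rfl fun v hv => ?_
  have hv' := mem_compl.1 hv
  have huv : u ≠ v := fun h => hv' (h ▸ hu)
  unfold mu
  rw [if_neg huv]
  congr 1
  ext e
  simp only [mem_filter, mem_univ, true_and, mem_ecut]
  constructor
  · rintro ⟨-, h⟩
    by_cases h2 : s e ∈ Y
    · rw [if_pos h2] at h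
      exact Or.inl ⟨congrArg Prod.fst h, congrArg Prod.snd h⟩
    · rw [if_neg h2] at h
      exact Or.inr ⟨congrArg Prod.snd h, congrArg Prod.fst h⟩
  · rintro (⟨h1, h2⟩ | ⟨h1, h2⟩)
    · refine ⟨?_, ?_⟩
      · rw [h1, h2]
        exact fun h => hv' (h.1 hu)
      · rw [if_pos (by rw [h1]; exact hu), h1, h2]
    · refine ⟨?_, ?_⟩
      · rw [h1, h2]
        exact fun h => hv' (h.2 hu)
      · rw [if_neg (by rw [h1]; exact hv'), h1, h2]

theorem mu_symm (s d : E → V) (u v : V) : mu s d u v = mu s d v u := by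
  unfold mu
  by_cases h : u = v
  · rw [if_pos h, if_pos h.symm]
  · rw [if_neg h, if_neg (fun h' => h h'.symm)]
    congr 1
    ext e
    simp only [mem_filter, mem_univ, true_and]
    exact Or.comm

theorem deg_mu (s d : E → V) (v : V) : ∑ w, mu s d v w = (ecut s d {v}).card := by
  rw [ecut_card]
  unfold H76FC.cut
  rw [sum_singleton]
  have h2 := sum_add_sum_compl {v} (fun w => mu s d v w)
  rw [sum_singleton] at h2
  have h3 : mu s d v v = 0 := if_pos rfl
  rw [h3, zero_add] at h2
  exact h2.symm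

/-- the odd vertices -/
def odds (s d : E → V) : Finset V := univ.filter fun x => Odd (ecut s d {x}).card

theorem parity_sum (s d : E → V) (Z : Finset V) :
    (ecut s d Z).card % 2 = (∑ x ∈ Z, (ecut s d {x}).card) % 2 := by
  induction Z using Finset.induction_on with
  | empty =>
    have : ecut s d ∅ = ∅ := by
      ext e
      simp [mem_ecut]
    rw [this]
    rfl
  | insert a S ha ih =>
    rw [sum_insert ha, insert_eq, t6_par s d {a} S (by rwa [disjoint_singleton_left])]
    omega

theorem rg {r N : ℕ} (hr : Odd r) {s d : E → V} (hcon : OddConn r s d) (hreg : Reg r N s d)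
    (hiso : ∀ y, Even (ecut s d {y}).card → ecut s d {y} = ∅) : RG r (mu s d) (odds s d) := by
  refine ⟨fun v => if_pos rfl, mu_symm s d, ?_, ?_, ?_⟩
  · intro u v huv
    unfold mu at huv
    by_cases h : u = v
    · rw [if_pos h] at huv
      exact absurd rfl huv
    rw [if_neg h] at huv
    obtain ⟨e, he⟩ := card_pos.1 (Nat.pos_of_ne_zero huv)
    have he' := (mem_filter.1 he).2
    have h1 : e ∈ ecut s d {u} := by
      rw [mem_ecut, mem_singleton, mem_singleton]
      rcases he' with ⟨h2, h3⟩ | ⟨h2, h3⟩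
      · rw [h2, h3]
        exact fun h4 => h (h4.1 rfl).symm
      · rw [h2, h3]
        exact fun h4 => h (h4.2 rfl).symm
    unfold odds
    rw [mem_filter]
    refine ⟨mem_univ _, ?_⟩
    by_contra hodd
    rw [Nat.not_odd_iff_even] at hodd
    rw [hiso u hodd] at h1
    exact absurd h1 (notMem_empty _)
  · intro v hv
    rw [deg_mu]
    exact hreg.1 v (mem_filter.1 hv).2
  · intro Z hZ hodd
    rw [← ecut_card]
    apply hcon
    rw [Nat.odd_iff, parity_sum, sum_congr rfl fun x hx => hreg.1 x (mem_filter.1 (hZ hx)).2,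
      sum_const, smul_eq_mul, ← Nat.odd_iff]
    exact hodd.mul hr

theorem hh_eq (s d : E → V) (g : E) (v : V) :
    hh s d g v = if g ∈ ecut s d {v} then 1 else 0 := by
  unfold hh
  simp only [mem_ecut, mem_singleton]
  have h3 : (1 : ZMod 2) + 1 = 0 := by decide
  by_cases h1 : s g = v <;> by_cases h2 : d g = v <;> simp [h1, h2, h3]

theorem sum_hh (w : E → ZMod 2) (s d : E → V) (v : V) :
    ∑ g, w g * hh s d g v = ∑ g ∈ ecut s d {v}, w g := by
  rw [← sum_filter_add_sum_filter_not univ (· ∈ ecut s d {v})]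
  have e1 : univ.filter (· ∈ ecut s d {v}) = ecut s d {v} := by ext x; simp
  have e2 : ∑ g ∈ univ.filter (fun g => g ∉ ecut s d {v}), w g * hh s d g v = 0 := by
    refine sum_eq_zero fun g hg => ?_
    rw [hh_eq, if_neg (mem_filter.1 hg).2, mul_zero]
  rw [e1, e2, add_zero]
  refine sum_congr rfl fun g hg => ?_
  rw [hh_eq, if_pos hg, mul_one]

theorem pack_of_col {r N : ℕ} (hr : Odd r) {s d : E → V} (hreg : Reg r N s d)
    (hiso : ∀ y, Even (ecut s d {y}).card → ecut s d {y} = ∅)
    (hcol : Col r (mu s d)) : Pack r s d := by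
  classical
  obtain ⟨M, hM1, hM2⟩ := hcol
  have hr0 : 0 < r := hr.pos
  let I : Type := {e : E // s e ≠ d e}
  let I' : Type := {q : Fin r × Sym2 V // ∃ u, q.2 = s(u, M q.1 u) ∧ M q.1 u ≠ u}
  let a : I → Sym2 V := fun e => s(s e.1, d e.1)
  let b : I' → Sym2 V := fun q => q.1.2
  have hcards : ∀ z : Sym2 V, (univ.filter fun i : I => a i = z).card =
      (univ.filter fun i : I' => b i = z).card := by
    intro z
    induction z using Sym2.inductionOn with
    | _ u v =>
    by_cases huv : u = v
    · subst huv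
      have e1 : (univ.filter fun i : I => a i = s(u, u)) = ∅ := by
        rw [filter_eq_empty_iff]
        rintro ⟨e, he⟩ _ hz
        change s(s e, d e) = s(u, u) at hz
        rw [Sym2.eq_iff] at hz
        rcases hz with ⟨h1, h2⟩ | ⟨h1, h2⟩
        · exact he (h1.trans h2.symm)
        · exact he (h1.trans h2.symm)
      have e2 : (univ.filter fun i : I' => b i = s(u, u)) = ∅ := by
        rw [filter_eq_empty_iff]
        rintro ⟨⟨i, z⟩, w, hw, hne⟩ _ hz
        change z = s(u, u) at hz
        change z = s(w, M i w) at hw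
        rw [hz, Sym2.eq_iff] at hw
        rcases hw with ⟨h1, h2⟩ | ⟨h1, h2⟩
        · exact hne (h2.symm.trans h1)
        · exact hne (h1.symm.trans h2)
      rw [e1, e2]
      rfl
    · have h1 : (univ.filter fun i : I => a i = s(u, v)).card = mu s d u v := by
        unfold mu
        rw [if_neg huv]
        refine card_bij (fun e _ => e.1) ?_ ?_ ?_
        · rintro e he
          have h2 : s(s e.1, d e.1) = s(u, v) := (mem_filter.1 he).2
          rw [Sym2.eq_iff] at h2
          exact mem_filter.2 ⟨mem_univ _, h2⟩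
        · intro e _ e' _ h
          exact Subtype.ext h
        · intro e he
          have h2 := (mem_filter.1 he).2
          have h3 : s e ≠ d e := by
            rcases h2 with ⟨h4, h5⟩ | ⟨h4, h5⟩
            · rw [h4, h5]; exact huv
            · rw [h4, h5]; exact fun h => huv h.symm
          exact ⟨⟨e, h3⟩, mem_filter.2 ⟨mem_univ _, Sym2.eq_iff.2 h2⟩, rfl⟩
      rw [h1, ← hM2 u v huv]
      refine card_bij (fun i hi => (⟨(i, s(u, v)), u, by rw [(mem_filter.1 hi).2],
        by rw [(mem_filter.1 hi).2]; exact fun h => huv h.symm⟩ : I')) ?_ ?_ ?_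
      · intro i _
        exact mem_filter.2 ⟨mem_univ _, rfl⟩
      · intro i _ j _ h
        exact congrArg (fun q : I' => q.1.1) h
      · rintro ⟨⟨i, z⟩, w, hw, hne⟩ hz
        have hz' : z = s(u, v) := (mem_filter.1 hz).2
        subst hz'
        change s(u, v) = s(w, M i w) at hw
        rw [Sym2.eq_iff] at hw
        have h3 : M i u = v := by
          rcases hw with ⟨h4, h5⟩ | ⟨h4, h5⟩
          · rw [h4, h5]
          · rw [h4, hM1, h5]
        exact ⟨i, mem_filter.2 ⟨mem_univ _, h3⟩, rfl⟩
  obtain ⟨φ, hφ⟩ := H76FC.matchFib I I' (Sym2 V) a b hcards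
  -- the matchings have no fixed points among the odd vertices
  have hfix : ∀ v ∈ odds s d, ∀ i, M i v ≠ v := by
    intro v hv i0 h0
    have h1 : ∑ w, mu s d v w = r := by
      rw [deg_mu]
      exact hreg.1 v (mem_filter.1 hv).2
    have h2 : ∑ w, (univ.filter fun i => M i v = w).card = r := by
      rw [← card_eq_sum_card_fiberwise (f := fun i => M i v) (fun i _ => mem_univ _)]
      simp
    have h3 : ∀ w, mu s d v w ≤ (univ.filter fun i => M i v = w).card := by
      intro w
      by_cases hw : v = w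
      · subst hw
        unfold mu
        rw [if_pos rfl]
        exact Nat.zero_le _
      · rw [hM2 v w hw]
    have h4 : mu s d v v < (univ.filter fun i => M i v = v).card := by
      unfold mu
      rw [if_pos rfl]
      exact card_pos.2 ⟨i0, mem_filter.2 ⟨mem_univ _, h0⟩⟩
    have h5 := sum_lt_sum (fun w _ => h3 w) ⟨v, mem_univ _, h4⟩
    omega
  let c : E → Fin r := fun e => if h : s e ≠ d e then (φ ⟨e, h⟩).1.1 else ⟨0, hr0⟩
  have hc : ∀ (e : E) (h : s e ≠ d e), M (c e) (s e) = d e ∧ M (c e) (d e) = s e := by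
    intro e h
    have h1 : (φ ⟨e, h⟩).1.2 = s(s e, d e) := hφ ⟨e, h⟩
    obtain ⟨w, hw, -⟩ := (φ ⟨e, h⟩).2
    rw [h1, Sym2.eq_iff] at hw
    have h2 : c e = (φ ⟨e, h⟩).1.1 := dif_pos h
    rw [h2]
    rcases hw with ⟨h3, h4⟩ | ⟨h3, h4⟩
    · constructor
      · rw [h4, ← h3]
      · rw [h4, hM1, ← h3]
    · constructor
      · rw [h3, hM1, h4]
      · rw [h4, ← h3]
  refine ⟨c, fun v i => ?_⟩
  rw [sum_hh, sum_hh (fun _ => 1)]
  by_cases hv : v ∈ odds s d
  · have hvodd := (mem_filter.1 hv).2
    have hR : ∑ g ∈ ecut s d {v}, (1 : ZMod 2) = 1 := by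
      rw [sum_const, nsmul_eq_mul, mul_one]
      exact (ZMod.natCast_eq_one_iff_odd).2 hvodd
    rw [hR]
    -- the unique edge of colour `i` at `v`
    have hne := hfix v hv i
    let q : I' := ⟨(i, s(v, M i v)), v, rfl, hne⟩
    obtain ⟨⟨e0, he0⟩, hq⟩ : ∃ e : I, φ e = q := φ.surjective q
    have h1 : s(s e0, d e0) = s(v, M i v) := by
      have := hφ ⟨e0, he0⟩
      rw [hq] at this
      exact this.symm
    have hce0 : c e0 = i := by
      have h2 : c e0 = (φ ⟨e0, he0⟩).1.1 := dif_pos he0
      rw [h2, hq]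
    have hmem : e0 ∈ ecut s d {v} := by
      rw [mem_ecut, mem_singleton, mem_singleton]
      rw [Sym2.eq_iff] at h1
      rcases h1 with ⟨h2, h3⟩ | ⟨h2, h3⟩
      · rw [h2, h3]
        exact fun h => hne (h.1 rfl)
      · rw [h2, h3]
        exact fun h => hne (h.2 rfl)
    rw [sum_eq_single_of_mem e0 hmem]
    · rw [if_pos hce0]
    · intro e he hne2
      rw [if_neg]
      intro hce
      apply hne2
      rw [mem_ecut, mem_singleton, mem_singleton] at he
      have hes : s e ≠ d e := fun h => he (by rw [h])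
      obtain ⟨h2, h3⟩ := hc e hes
      rw [hce] at h2 h3
      have h4 : s(s e, d e) = s(v, M i v) := by
        by_cases h5 : s e = v
        · rw [← h2, h5]
        · have h6 : d e = v := by
            by_contra h6
            exact he ⟨fun h => absurd h h5, fun h => absurd h h6⟩
          rw [← h3, h6, Sym2.eq_swap]
      have h5 : φ ⟨e, hes⟩ = q := by
        apply Subtype.ext
        refine Prod.ext ?_ ?_
        · have h6 : c e = (φ ⟨e, hes⟩).1.1 := dif_pos hes
          rw [← h6, hce]
        · have h7 : (φ ⟨e, hes⟩).1.2 = s(s e, d e) := hφ ⟨e, hes⟩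
          rw [h7, h4]
      have h6 := φ.injective (h5.trans hq.symm)
      exact congrArg (fun x : I => x.1) h6
  · have h1 : ecut s d {v} = ∅ := by
      apply hiso
      rw [← Nat.not_odd_iff_even]
      exact fun h => hv (mem_filter.2 ⟨mem_univ _, h⟩)
    rw [h1, sum_empty, sum_empty]

/-- at most eight vertices of odd degree, all of degree `r` -/
theorem base {r : ℕ} (hr : Odd r) (s d : E → V) (hcon : OddConn r s d) (hreg : Reg r 8 s d)
    (hiso : ∀ y, Even (ecut s d {y}).card → ecut s d {y} = ∅) : Pack r s d := by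
  have h1 := rg hr hcon hreg hiso
  obtain ⟨h2, h3⟩ := H76TW.restr V r (mu s d) (odds s d) h1
  have h4 : Fintype.card {x // x ∈ odds s d} ≤ 8 := by
    rw [Fintype.card_coe]
    exact hreg.2
  have h5 := h3 1 (W315.LB.eight' _ r _ h4 h2)
  exact pack_of_col hr hreg hiso (H76TW.col_congr h5 (one_mul r) (fun u v => one_mul _))

end Pool.Agent.X24.RZ
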