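import Pool.Agent.X24.RZ.Base

/-!
# Partitions into postman joins: reduction to graphs whose odd vertices have degree `r`
-/

set_option autoImplicit false
set_option linter.unusedSectionVars false

namespace Pool.Agent.X24.RZ

open Finset Pool.Agent.H185F
open Pool.Agent.H239R2.Cover (ecut mem_ecut)

variable {V E : Type} [Fintype V] [DecidableEq V] [Fintype E] [DecidableEq E]

/-- every vertex `v` is replaced by `inr v`, which is joined by `r` edges to the new vertex `inl v`
if its degree is odd -/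
def xs (s : E → V) (r : ℕ) : E ⊕ (V × Fin r) → V ⊕ V
  | .inl e => .inr (s e)
  | .inr q => .inr q.1

/-- second ends -/
def xd (s d : E → V) (r : ℕ) : E ⊕ (V × Fin r) → V ⊕ V
  | .inl e => .inr (d e)
  | .inr q => if Odd (ecut s d {q.1}).card then .inl q.1 else .inr q.1

theorem xcut (s d : E → V) (r : ℕ) (X : Finset (V ⊕ V)) :
    (ecut (xs s r) (xd s d r) X).card = (ecut s d (univ.filter fun v => .inr v ∈ X)).card +
      (univ.filter fun v => Odd (ecut s d {v}).card ∧ ¬ (.inr v ∈ X ↔ .inl v ∈ X)).card * r := by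
  have h1 : (ecut (xs s r) (xd s d r) X).card =
      ∑ g, if ¬ (xs s r g ∈ X ↔ xd s d r g ∈ X) then 1 else 0 := by
    unfold ecut
    rw [card_filter]
  have h2 : (ecut s d (univ.filter fun v => .inr v ∈ X)).card =
      ∑ e, if ¬ (.inr (s e) ∈ X ↔ .inr (d e) ∈ X) then 1 else 0 := by
    unfold ecut
    rw [card_filter]
    simp only [mem_filter, mem_univ, true_and]
  rw [h1, h2, Fintype.sum_sum_type]
  congr 1
  rw [Fintype.sum_prod_type, card_filter, sum_mul]
  refine sum_congr rfl fun v _ => ?_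
  by_cases hv : Odd (ecut s d {v}).card
  · by_cases hx : ((.inr v : V ⊕ V) ∈ X ↔ .inl v ∈ X)
    · simp [xs, xd, hv, hx]
    · simp [xs, xd, hv, hx]
  · simp [xs, xd, hv]

theorem xcon {r : ℕ} {s d : E → V} (h : OddConn r s d) : OddConn r (xs s r) (xd s d r) := by
  intro X hX
  rw [xcut] at hX ⊢
  rcases Nat.eq_zero_or_pos
    (univ.filter fun v => Odd (ecut s d {v}).card ∧ ¬ (.inr v ∈ X ↔ .inl v ∈ X)).card with h0 | h0
  · rw [h0, zero_mul, add_zero] at hX ⊢
    exact h _ hX
  · exact le_trans (Nat.le_mul_of_pos_left r h0) (Nat.le_add_left _ _)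

theorem xdeg_inl (s d : E → V) (r : ℕ) (v : V) :
    (ecut (xs s r) (xd s d r) {.inl v}).card = if Odd (ecut s d {v}).card then r else 0 := by
  rw [xcut]
  have h1 : (univ.filter fun w : V => (.inr w : V ⊕ V) ∈ ({.inl v} : Finset (V ⊕ V))) = ∅ := by
    rw [filter_eq_empty_iff]
    intro w _
    simp
  have h2 : ecut s d ∅ = ∅ := by
    ext e
    simp [mem_ecut]
  rw [h1, h2, card_empty, zero_add]
  by_cases hv : Odd (ecut s d {v}).card
  · rw [if_pos hv]
    have h3 : (univ.filter fun w => Odd (ecut s d {w}).card ∧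
        ¬ ((.inr w : V ⊕ V) ∈ ({.inl v} : Finset (V ⊕ V)) ↔ .inl w ∈ ({.inl v} : Finset (V ⊕ V)))) =
        {v} := by
      ext w
      simp only [mem_filter, mem_univ, true_and, mem_singleton]
      constructor
      · rintro ⟨-, h4⟩
        by_contra hne
        apply h4
        simp [hne]
      · rintro rfl
        exact ⟨hv, by simp⟩
    rw [h3, card_singleton, one_mul]
  · rw [if_neg hv]
    have h3 : (univ.filter fun w => Odd (ecut s d {w}).card ∧
        ¬ ((.inr w : V ⊕ V) ∈ ({.inl v} : Finset (V ⊕ V)) ↔ .inl w ∈ ({.inl v} : Finset (V ⊕ V)))) =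
        ∅ := by
      rw [filter_eq_empty_iff]
      rintro w _ ⟨h5, h4⟩
      apply h4
      have hne : w ≠ v := fun h => hv (h ▸ h5)
      simp [hne]
    rw [h3, card_empty, zero_mul]

theorem xdeg_inr {s d : E → V} {r : ℕ} (hr : Odd r) (v : V) :
    ¬ Odd (ecut (xs s r) (xd s d r) {.inr v}).card := by
  rw [xcut]
  have h1 : (univ.filter fun w : V => (.inr w : V ⊕ V) ∈ ({.inr v} : Finset (V ⊕ V))) = {v} := by
    ext w
    simp
  rw [h1]
  by_cases hv : Odd (ecut s d {v}).card
  · have h3 : (univ.filter fun w => Odd (ecut s d {w}).card ∧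
        ¬ ((.inr w : V ⊕ V) ∈ ({.inr v} : Finset (V ⊕ V)) ↔ .inl w ∈ ({.inr v} : Finset (V ⊕ V)))) =
        {v} := by
      ext w
      simp only [mem_filter, mem_univ, true_and, mem_singleton]
      constructor
      · rintro ⟨-, h4⟩
        by_contra hne
        apply h4
        simp [hne]
      · rintro rfl
        exact ⟨hv, by simp⟩
    rw [h3, card_singleton, one_mul, Nat.not_odd_iff_even]
    exact hv.add_odd hr
  · have h3 : (univ.filter fun w => Odd (ecut s d {w}).card ∧
        ¬ ((.inr w : V ⊕ V) ∈ ({.inr v} : Finset (V ⊕ V)) ↔ .inl w ∈ ({.inr v} : Finset (V ⊕ V)))) =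
        ∅ := by
      rw [filter_eq_empty_iff]
      rintro w _ ⟨h5, h4⟩
      apply h4
      have hne : w ≠ v := fun h => hv (h ▸ h5)
      simp [hne]
    rw [h3, card_empty, zero_mul, add_zero]
    exact hv

theorem xreg {s d : E → V} {r N : ℕ} (hr : Odd r)
    (hN : (univ.filter fun x => Odd (ecut s d {x}).card).card ≤ N) :
    Reg r N (xs s r) (xd s d r) := by
  refine ⟨?_, ?_⟩
  · rintro (v | v) hv
    · rw [xdeg_inl] at hv ⊢
      by_cases h : Odd (ecut s d {v}).card
      · rw [if_pos h]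
      · rw [if_neg h] at hv
        exact absurd hv (by decide)
    · exact absurd hv (xdeg_inr hr v)
  · refine le_trans ?_ hN
    refine card_le_card_of_surjOn (fun v => (.inl v : V ⊕ V)) ?_
    rintro (v | v) hv
    · have hv' := (mem_filter.1 (mem_coe.1 hv)).2
      rw [xdeg_inl] at hv'
      by_cases h : Odd (ecut s d {v}).card
      · exact ⟨v, mem_coe.2 (mem_filter.2 ⟨mem_univ _, h⟩), rfl⟩
      · rw [if_neg h] at hv'
        exact absurd hv' (by decide)
    · exact absurd (mem_filter.1 (mem_coe.1 hv)).2 (xdeg_inr hr v)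

theorem xsum {s d : E → V} {r : ℕ} (w : E ⊕ (V × Fin r) → ZMod 2) (v : V) :
    ∑ g, w g * hh (xs s r) (xd s d r) g (.inr v) + ∑ g, w g * hh (xs s r) (xd s d r) g (.inl v) =
      ∑ e, w (.inl e) * hh s d e v := by
  have two : (1 : ZMod 2) + 1 = 0 := by decide
  have tt : ∀ x : ZMod 2, x + x = 0 := fun x => by rw [← two_mul, show (2 : ZMod 2) = 0 from by decide, zero_mul]
  rw [Fintype.sum_sum_type, Fintype.sum_sum_type]
  have h1 : ∀ e, hh (xs s r) (xd s d r) (.inl e) (.inr v) = hh s d e v := by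
    intro e
    simp [hh, xs, xd]
  have h2 : ∀ e, hh (xs s r) (xd s d r) (.inl e) (.inl v) = 0 := by
    intro e
    simp [hh, xs, xd]
  have h3 : ∀ q : V × Fin r, hh (xs s r) (xd s d r) (.inr q) (.inr v) =
      hh (xs s r) (xd s d r) (.inr q) (.inl v) := by
    rintro ⟨u, j⟩
    by_cases hu : Odd (ecut s d {u}).card
    · simp [hh, xs, xd, hu]
    · have h4 : xd s d r (.inr (u, j)) = .inr u := by
        unfold xd
        exact if_neg hu
      by_cases huv : u = v
      · subst huv
        simp [hh, xs, h4, two]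
      · simp [hh, xs, h4, huv]
  simp only [h1, h2, h3, mul_zero, sum_const_zero, zero_add]
  rw [add_assoc, tt, add_zero]

/-- **Reduction.** -/
theorem pack_of {r N k : ℕ} (hr : Odd r)
    (hbase : ∀ s d : E ⊕ (V × Fin r) → V ⊕ V, OddConn r s d → Reg r N s d →
      (∀ y, Even (ecut s d {y}).card → ecut s d {y} = ∅) → Pack k s d)
    (s d : E → V) (hcon : OddConn r s d)
    (hN : (univ.filter fun x => Odd (ecut s d {x}).card).card ≤ N) : Pack k s d := by
  obtain ⟨c, hc⟩ := reduce r hr N k (fun s d h1 h2 h3 => hbase s d h1 h2 h3) _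
    (xs s r) (xd s d r) le_rfl (xcon hcon) (xreg hr hN)
  refine ⟨fun e => c (.inl e), fun v i => ?_⟩
  have h1 := xsum (s := s) (d := d) (fun g => if c g = i then (1 : ZMod 2) else 0) v
  have h2 := xsum (s := s) (d := d) (r := r) (fun _ => 1) v
  rw [← h1, ← h2, hc (.inr v) i, hc (.inl v) i]

theorem pack8 {r : ℕ} (hr : Odd r) (s d : E → V) (hcon : OddConn r s d)
    (hN : (univ.filter fun x => Odd (ecut s d {x}).card).card ≤ 8) : Pack r s d :=
  pack_of hr (fun s d h1 h2 h3 => base hr s d h1 h2 h3) s d hcon hN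

end Pool.Agent.X24.RZ
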