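import Pool.Agent.X24.RZ.Share
import Mathlib.LinearAlgebra.Dual.Lemmas

/-!
# Existence of parity subgraphs
-/

set_option autoImplicit false
set_option linter.unusedSectionVars false

namespace Pool.Agent.X24.RZ

open Finset Pool.Agent.H185F
open Pool.Agent.H239R2.Cover (ecut mem_ecut)

variable {V E : Type} [Fintype V] [DecidableEq V] [Fintype E] [DecidableEq E]

/-- the boundary map on the edges outside of `A` -/
def bmap (s d : E → V) (A : Finset E) : (E → ZMod 2) →ₗ[ZMod 2] (V → ZMod 2) where
  toFun x v := ∑ g, (if g ∈ A then 0 else x g) * hh s d g v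
  map_add' x y := by
    funext v
    rw [Pi.add_apply, ← sum_add_distrib]
    refine sum_congr rfl fun g _ => ?_
    by_cases h : g ∈ A
    · simp [h]
    · simp only [if_neg h, Pi.add_apply]
      ring
  map_smul' c x := by
    funext v
    rw [Pi.smul_apply, RingHom.id_apply, smul_eq_mul, mul_sum]
    refine sum_congr rfl fun g _ => ?_
    by_cases h : g ∈ A
    · simp [h]
    · simp only [if_neg h, Pi.smul_apply, smul_eq_mul]
      ring

theorem tjoin (s d : E → V) (A : Finset E) (T : Finset V)
    (h : ∀ X : Finset V, Odd (T ∩ X).card → ∃ g ∈ ecut s d X, g ∉ A) :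
    ∃ x : E → ZMod 2, (∀ g ∈ A, x g = 0) ∧
      ∀ v, ∑ g, x g * hh s d g v = if v ∈ T then 1 else 0 := by
  classical
  by_cases ht : (fun v => if v ∈ T then (1 : ZMod 2) else 0) ∈ LinearMap.range (bmap s d A)
  · obtain ⟨x, hx⟩ := ht
    refine ⟨fun g => if g ∈ A then 0 else x g, fun g hg => if_pos hg, fun v => ?_⟩
    exact congrFun hx v
  · exfalso
    obtain ⟨φ, h1, h2⟩ := Submodule.exists_le_ker_of_notMem ht
    have h3 : ∀ x, φ (bmap s d A x) = 0 := fun x =>
      LinearMap.mem_ker.1 (h2 (LinearMap.mem_range_self _ x))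
    let y : V → ZMod 2 := fun i => φ fun j => if i = j then 1 else 0
    have hy : ∀ z : V → ZMod 2, φ z = ∑ i, z i * y i := fun z =>
      LinearMap.pi_apply_eq_sum_univ φ z
    have h5 : ∀ g, g ∉ A → y (s g) = y (d g) := by
      intro g hg
      have h6 := h3 (fun g' => if g' = g then 1 else 0)
      rw [hy] at h6
      have h7 : ∀ v, bmap s d A (fun g' => if g' = g then 1 else 0) v = hh s d g v := by
        intro v
        show ∑ g', (if g' ∈ A then 0 else if g' = g then (1 : ZMod 2) else 0) * hh s d g' v = _
        rw [sum_eq_single g]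
        · rw [if_neg hg, if_pos rfl, one_mul]
        · intro b _ hb
          rw [if_neg hb]
          simp
        · intro hb
          exact absurd (mem_univ g) hb
      simp only [h7] at h6
      unfold hh at h6
      simp only [add_mul, sum_add_distrib, ite_mul, one_mul, zero_mul, sum_ite_eq, mem_univ,
        if_true] at h6
      have h8 : ∀ a b : ZMod 2, a + b = 0 → a = b := by decide
      exact h8 _ _ h6
    have h6 : ∀ a : ZMod 2, a = if a = 1 then 1 else 0 := by decide
    have h7 : Odd (T ∩ univ.filter fun v => y v = 1).card := by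
      rw [← ZMod.natCast_eq_one_iff_odd]
      have h8 : φ (fun v => if v ∈ T then (1 : ZMod 2) else 0) =
          (((T ∩ univ.filter fun v => y v = 1).card : ℕ) : ZMod 2) := by
        rw [hy]
        simp only [ite_mul, one_mul, zero_mul]
        rw [sum_ite_mem, univ_inter, sum_congr rfl fun v _ => h6 (y v), sum_boole]
        congr 2
        ext v
        simp
      rw [← h8]
      have h9 : ∀ a : ZMod 2, a ≠ 0 → a = 1 := by decide
      exact h9 _ h1
    obtain ⟨g, hg, hgA⟩ := h _ h7
    rw [mem_ecut, mem_filter, mem_filter] at hg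
    apply hg
    rw [h5 g hgA]
    simp

end Pool.Agent.X24.RZ
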