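import Pool.Agent.X24.RZ.Part
import Pool.Agent.TH849.LB.Crit

/-!
# Many postman joins in graphs with a bounded number of vertices of odd degree
-/

set_option autoImplicit false
set_option linter.unusedSectionVars false

namespace Pool.Agent.X24.RZ

open Finset Pool.Agent.H185F H76FC H76TX
open Pool.Agent.H239R2.Cover (ecut mem_ecut)

theorem remove_big {V : Type} [Fintype V] [DecidableEq V] {r : ℕ} {p : V → V → ℕ} (hr : 1 ≤ r)
    (hR : RGraph r p) (hbig : 2 ^ Fintype.card V ≤ r) :
    ∃ M, PMof p M ∧ RGraph (r - 1) (minus p M) := by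
  classical
  have hr0 : (0 : ℝ) < r := by exact_mod_cast hr
  have hge : ∀ S : Finset V, Odd S.card → (r : ℝ) ≤ H76FC.cut p S := fun S hS => by
    exact_mod_cast hR.odd S hS
  have hmemF : ∀ S : Finset V, S ∈ (univ.filter fun S : Finset V => Odd S.card) ↔ Odd S.card := by
    intro S
    simp
  obtain ⟨M, hM, havg⟩ := TH583.HB.exists_avg hR hr (univ.filter fun S : Finset V => Odd S.card)
    (fun S => 1 / ((H76FC.cut p S : ℝ) - r + 2)) (fun S hS => by
      have := hge S ((hmemF S).1 hS)
      apply div_nonneg zero_le_one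
      linarith)
  refine ⟨M, hM, ?_⟩
  rcases TH583.HB.remove_or hr hR hM with h | ⟨S, T, -, hS, -⟩
  · exact h
  exfalso
  have hodd : ∀ S : Finset V, Odd S.card → (1 : ℝ) ≤ out M S := by
    intro S hS
    obtain ⟨b, hb⟩ := TH583.HB.out_parity hM.1 S
    obtain ⟨c, hc⟩ := hS
    have : 1 ≤ out M S := by omega
    exact_mod_cast this
  have hSF : S ∈ (univ.filter fun S : Finset V => Odd S.card) := (hmemF S).2 hS.odd
  have h1 : (H76FC.cut p S : ℝ) - r + 3 ≤ out M S := by
    have h1 := TH583.HB.cut_add hM S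
    have h2 := hS.lt
    obtain ⟨a, ha⟩ := TH583.HB.cut_parity hR hS.odd
    obtain ⟨b, hb⟩ := TH583.HB.out_parity hM.1 S
    obtain ⟨c, hc⟩ := hS.odd
    have h3 : H76FC.cut p S + 3 ≤ out M S + r := by omega
    have h4 : (H76FC.cut p S : ℝ) + 3 ≤ out M S + r := by exact_mod_cast h3
    linarith
  have h2 : (1 : ℝ) ≤ ∑ S ∈ (univ.filter fun S : Finset V => Odd S.card),
      1 / ((H76FC.cut p S : ℝ) - r + 2) * (out M S - 1) := by
    have h3 : (1 : ℝ) ≤ 1 / ((H76FC.cut p S : ℝ) - r + 2) * (out M S - 1) := by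
      have h4 := hge S hS.odd
      rw [one_div, inv_mul_eq_div, le_div_iff₀ (by linarith)]
      linarith
    refine le_trans h3 (single_le_sum (f := fun S => 1 / ((H76FC.cut p S : ℝ) - r + 2) *
      ((out M S : ℝ) - 1)) (fun S hS => ?_) hSF)
    have h5 := hge S ((hmemF S).1 hS)
    have h6 := hodd S ((hmemF S).1 hS)
    exact mul_nonneg (div_nonneg zero_le_one (by linarith)) (by linarith)
  have h3 : ∑ S ∈ (univ.filter fun S : Finset V => Odd S.card),
      1 / ((H76FC.cut p S : ℝ) - r + 2) * ((H76FC.cut p S : ℝ) / r - 1) < 1 := by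
    have h4 : ∀ S ∈ (univ.filter fun S : Finset V => Odd S.card),
        1 / ((H76FC.cut p S : ℝ) - r + 2) * ((H76FC.cut p S : ℝ) / r - 1) < 1 / r := by
      intro S hS
      have h5 := hge S ((hmemF S).1 hS)
      have h6 : (0 : ℝ) < (H76FC.cut p S : ℝ) - r + 2 := by linarith
      rw [one_div, inv_mul_eq_div, div_lt_div_iff₀ h6 hr0, sub_mul, div_mul_cancel₀ _ hr0.ne']
      linarith
    have h5 := sum_lt_sum_of_nonempty ⟨S, hSF⟩ h4
    rw [sum_const, nsmul_eq_mul] at h5
    have h6 : (((univ.filter fun S : Finset V => Odd S.card).card : ℕ) : ℝ) ≤ r := by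
      have h7 : (univ.filter fun S : Finset V => Odd S.card).card ≤ r := by
        refine le_trans (card_le_univ _) ?_
        rw [Fintype.card_finset]
        exact hbig
      exact_mod_cast h7
    have h7 : (((univ.filter fun S : Finset V => Odd S.card).card : ℕ) : ℝ) * (1 / r) ≤ 1 := by
      rw [mul_one_div, div_le_one hr0]
      exact h6
    linarith
  simp only [mul_sub, mul_one, sum_sub_distrib] at h2 h3
  linarith

theorem pc_many {V : Type} [Fintype V] [DecidableEq V] (k : ℕ) : ∀ (r : ℕ) (p : V → V → ℕ),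
    k + 2 ^ Fintype.card V ≤ r → RGraph r p → PC k p := by
  induction k with
  | zero => intro r p _ _; exact ⟨fun i => i.elim0, fun i => i.elim0, fun u v => by simp⟩
  | succ k ih =>
    intro r p hr hp
    obtain ⟨c, hc⟩ : ∃ c, c = 2 ^ Fintype.card V := ⟨_, rfl⟩
    rw [← hc] at hr
    obtain ⟨M, hM, h1⟩ := remove_big (by omega) hp (by rw [← hc]; omega)
    exact pc_add hM (ih (r - 1) _ (by rw [← hc]; omega) h1)

variable {V E : Type} [Fintype V] [DecidableEq V] [Fintype E] [DecidableEq E]

theorem base_many {k N : ℕ} (hk : Odd k) (hN : 1 ≤ N) (s d : E → V)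
    (hcon : OddConn (k + 2 ^ N) s d)
    (hreg : Reg (k + 2 ^ N) N s d) (hiso : ∀ y, Even (ecut s d {y}).card → ecut s d {y} = ∅) :
    Pack k s d := by
  classical
  have hr : Odd (k + 2 ^ N) := hk.add_even (Nat.even_pow.2 ⟨even_two, by omega⟩)
  have h1 := rg hr hcon hreg hiso
  obtain ⟨h2, -⟩ := H76TW.restr V (k + 2 ^ N) (mu s d) (odds s d) h1
  have h4 : Fintype.card {x // x ∈ odds s d} ≤ N := by
    rw [Fintype.card_coe]
    exact hreg.2
  obtain ⟨Q, n1, n2⟩ := pc_many k _ _
    (Nat.add_le_add_left (Nat.pow_le_pow_right (by norm_num) h4) k) h2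
  refine pack_of_partial hk hiso (fun i v => if h : v ∈ odds s d then (Q i ⟨v, h⟩).1 else v)
    ?_ ?_ ?_
  · intro i u
    by_cases h : u ∈ odds s d
    · simp only [dif_pos h, (Q i ⟨u, h⟩).2]
      rw [dif_pos trivial, (n1 i).1]
    · simp only [dif_neg h]
  · intro u v huv
    by_cases hu : u ∈ odds s d
    · by_cases hv : v ∈ odds s d
      · refine le_trans (le_of_eq ?_) (n2 ⟨u, hu⟩ ⟨v, hv⟩)
        congr 1
        ext i
        simp only [mem_filter, mem_univ, true_and, dif_pos hu]
        constructor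
        · intro h
          exact Subtype.ext h
        · intro h
          rw [h]
      · rw [filter_eq_empty_iff.2, card_empty]
        · exact Nat.zero_le _
        · intro i _
          simp only [dif_pos hu]
          intro h
          exact hv (h ▸ (Q i ⟨u, hu⟩).2)
    · rw [filter_eq_empty_iff.2, card_empty]
      · exact Nat.zero_le _
      · intro i _
        simp only [dif_neg hu]
        exact huv
  · intro v hv i
    simp only [dif_pos hv]
    intro h
    exact (n1 i).2 ⟨v, hv⟩ (Subtype.ext h)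

theorem pack_many {k N : ℕ} (hk : Odd k) (hN : 1 ≤ N) (s d : E → V)
    (hcon : OddConn (k + 2 ^ N) s d)
    (hc : (univ.filter fun x => Odd (ecut s d {x}).card).card ≤ N) : Pack k s d :=
  pack_of (hk.add_even (Nat.even_pow.2 ⟨even_two, by omega⟩))
    (fun s d h1 h2 h3 => base_many hk hN s d h1 h2 h3) s d hcon hc

end Pool.Agent.X24.RZ
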