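import Pool.Agent.H76R2.TX.Ten
import Pool.Agent.H76R2.TX.Pet
import Pool.Agent.H76R2.TX.Remove
import Pool.Agent.H76R2.TX.Uncross
import Pool.Agent.H76R2.TX.Indep
import Pool.Agent.H76R2.TX.Pentagon
import Pool.Agent.H76R2.TX.Switch
import Pool.Agent.W315.LB.Final

/-!
# `r`-graphs with at most ten vertices have `r - 2` disjoint perfect matchings

The proofs of `pet_three` and `allbad_three` are taken from `Pool.Agent.H76R2.TX.Pet` and
`Pool.Agent.H76R2.TX.Ten` (starting files), with a different conclusion.
-/

set_option autoImplicit false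
set_option linter.unusedSectionVars false

namespace Pool.Agent.X24.RZ

open Finset H76FC H76TX

open PetH in
theorem pet_three (r : ℕ) (p : Fin 5 × Bool → Fin 5 × Bool → ℕ) (hG : RGraph r p)
    (hsupp : ∀ x y, 0 < p x y ↔ pet x y = true)
    (hM : ∀ M, PMof p M → ∑ v, p v (M v) = 2 * (r + 2)) : r = 3 := by
  have hPM : ∀ k, PMof p (pm k) := by
    intro k
    exact ⟨⟨pm_inv k, pm_ne k⟩, fun v => (hsupp _ _).2 (pm_pet k v)⟩
  have hsum : ∀ v, ∑ k, p v (pm k v) = 2 * r := by
    intro v
    have h1 : ∑ k, p v (pm k v) = ∑ w, ∑ k with pm k v = w, p v (pm k v) :=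
      (Finset.sum_fiberwise univ (fun k => pm k v) (fun k => p v (pm k v))).symm
    rw [h1, ← hG.reg v, Finset.mul_sum]
    apply Finset.sum_congr rfl
    intro w _
    have h2 : ∑ k with pm k v = w, p v (pm k v) = ∑ k with pm k v = w, p v w := by
      apply Finset.sum_congr rfl
      intro k hk
      rw [(Finset.mem_filter.1 hk).2]
    rw [h2, Finset.sum_const, pm_cnt, smul_eq_mul]
    by_cases h : pet v w = true
    · rw [if_pos h]
    · rw [if_neg h, zero_mul]
      have : ¬ 0 < p v w := fun h3 => h ((hsupp v w).1 h3)
      omega
  show r = 3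
  have h1 : ∑ k : Fin 6, ∑ v, p v (pm k v) = 6 * (2 * (r + 2)) := by
    rw [Finset.sum_congr rfl (fun k _ => hM (pm k) (hPM k)), Finset.sum_const, Finset.card_univ,
      Fintype.card_fin, smul_eq_mul]
  have h2 : ∑ k : Fin 6, ∑ v, p v (pm k v) = 10 * (2 * r) := by
    rw [Finset.sum_comm, Finset.sum_congr rfl (fun v _ => hsum v), Finset.sum_const,
      Finset.card_univ, smul_eq_mul]
    rfl
  omega

theorem allbad_three (hT : S_transport) (hpm : H76TW.S_pm) (hunc : S_uncross)
    (hbc : S_badCompl) (hind : S_indep)
    (hpen : S_pentagon) (hs1 : S_switch1) (hs2 : S_switch2) {V : Type} [Fintype V]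
    [DecidableEq V] {r : ℕ} {p : V → V → ℕ} (hr : 1 ≤ r) (hV : Fintype.card V = 10)
    (hp : RGraph r p) (hnt : NoTight r p) (hall : AllBad r p) : r = 3 := by
  obtain ⟨M, hM1, hM2⟩ := hpm V r p hr hp
  have hM : PMof p M := ⟨hM1, hM2⟩
  obtain ⟨X, hX⟩ := hall M hM
  obtain ⟨σ, hσ, hσX, ho1, ho2, hi2, hi1, h0⟩ :=
    structure10 hunc hbc hind hpen hs1 hs2 hV hp hnt hall hM hX
  have hinj : Function.Injective M := fun a b h => by
    have := congrArg M h
    rwa [hM.1.1, hM.1.1] at this
  set f : Fin 5 × Bool → V := fun x => if x.2 then M (σ x.1) else σ x.1 with hf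
  have hf0 : ∀ i, f (i, false) = σ i := fun i => rfl
  have hf1 : ∀ i, f (i, true) = M (σ i) := fun i => rfl
  have hfinj : Function.Injective f := by
    rintro ⟨i, b⟩ ⟨j, c⟩ h
    cases b <;> cases c
    · rw [hf0, hf0] at h; rw [hσ h]
    · rw [hf0, hf1] at h
      exact absurd (h ▸ hσX i) (hX.out _ (hσX j))
    · rw [hf0, hf1] at h
      exact absurd (h ▸ hσX j) (hX.out _ (hσX i))
    · rw [hf1, hf1] at h; rw [hσ (hinj h)]
  have hfbij : Function.Bijective f := by
    rw [Fintype.bijective_iff_injective_and_card]
    exact ⟨hfinj, by rw [hV]; simp⟩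
  set e : Fin 5 × Bool ≃ V := Equiv.ofBijective f hfbij with he
  have hef : ∀ x, e x = f x := fun x => rfl
  obtain ⟨t1, -, _⟩ := hT V (Fin 5 × Bool) e.symm p (fun x y => p (e x) (e y)) 2 r
    (by intro u v; simp)
  refine pet_three r _ (t1 hp) ?_ ?_
  · rintro ⟨i, b⟩ ⟨j, c⟩
    simp only [hef]
    cases b <;> cases c
    · rw [hf0, hf0]
      rcases five_cases i j with rfl | rfl | rfl | rfl | rfl
      · rw [hp.loopless]
        constructor
        · intro h; omega
        · intro h; exfalso; revert h; clear * -; revert j; decide
      · constructor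
        · intro _; clear * -; revert i; decide
        · intro _; exact ho1 i
      · rw [ho2]
        constructor
        · intro h; omega
        · intro h; exfalso; revert h; clear * -; revert i; decide
      · rw [hp.symm]
        constructor
        · intro _; clear * -; revert j; decide
        · intro _; exact ho1 j
      · rw [hp.symm, ho2]
        constructor
        · intro h; omega
        · intro h; exfalso; revert h; clear * -; revert j; decide
    · rw [hf0, hf1]
      by_cases hij : i = j
      · subst hij
        constructor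
        · intro _; clear * -; revert i; decide
        · intro _; exact hM.2 _
      · rw [h0 i j hij]
        constructor
        · intro h; omega
        · intro h; exfalso; revert h; clear * - hij; revert i j; decide
    · rw [hf0, hf1, hp.symm]
      by_cases hij : j = i
      · subst hij
        constructor
        · intro _; clear * -; revert j; decide
        · intro _; exact hM.2 _
      · rw [h0 j i hij]
        constructor
        · intro h; omega
        · intro h; exfalso; revert h; clear * - hij; revert i j; decide
    · rw [hf1, hf1]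
      rcases five_cases i j with rfl | rfl | rfl | rfl | rfl
      · rw [hp.loopless]
        constructor
        · intro h; omega
        · intro h; exfalso; revert h; clear * -; revert j; decide
      · rw [hi1]
        constructor
        · intro h; omega
        · intro h; exfalso; revert h; clear * -; revert i; decide
      · constructor
        · intro _; clear * -; revert i; decide
        · intro _; exact hi2 i
      · rw [hp.symm, hi1]
        constructor
        · intro h; omega
        · intro h; exfalso; revert h; clear * -; revert j; decide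
      · rw [hp.symm]
        constructor
        · intro _; clear * -; revert j; decide
        · intro _; exact hi2 j
  · intro N hN
    have hN' : PMof p (fun v => e (N (e.symm v))) := by
      refine ⟨⟨fun v => ?_, fun v => ?_⟩, fun v => ?_⟩
      · simp [hN.1.1]
      · intro h
        apply hN.1.2 (e.symm v)
        apply e.injective
        rw [e.apply_symm_apply]
        exact h
      · have := hN.2 (e.symm v)
        simpa using this
    have hw := weight10 hunc hbc hind hpen hs1 hs2 hV hp hnt hall hN'
    rw [← hw, ← Equiv.sum_comp e]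
    simp


/-- `k` disjoint perfect matchings -/
def PC {V : Type} [Fintype V] [DecidableEq V] (k : ℕ) (p : V → V → ℕ) : Prop :=
  ∃ M : Fin k → V → V, (∀ i, IsPM (M i)) ∧ ∀ u v, (univ.filter fun i => M i u = v).card ≤ p u v

variable {V : Type} [Fintype V] [DecidableEq V]

theorem pc_of_cover {k r : ℕ} {p : V → V → ℕ} (h : Cover 1 r p) (hk : k ≤ r) : PC k p := by
  obtain ⟨M, h1, h2⟩ := h
  have hk' : k ≤ 1 * r := by omega
  refine ⟨fun i => M (Fin.castLE hk' i), fun i => h1 _, fun u v => ?_⟩
  have h3 := (h2 u v).trans (one_mul _)
  rw [← h3]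
  refine card_le_card_of_injOn (Fin.castLE hk') ?_ (Fin.castLE_injective hk').injOn
  intro i hi
  exact mem_coe.2 (mem_filter.2 ⟨mem_univ _, (mem_filter.1 (mem_coe.1 hi)).2⟩)

theorem pc_add {k : ℕ} {p : V → V → ℕ} {M : V → V} (hM : PMof p M) (h : PC k (minus p M)) :
    PC (k + 1) p := by
  obtain ⟨N, h1, h2⟩ := h
  refine ⟨Fin.cons M N, ?_, fun u v => ?_⟩
  · intro i
    refine Fin.cases ?_ ?_ i
    · exact hM.1
    · intro j
      exact h1 j
  · have h3 := h2 u v
    rw [card_filter] at h3 ⊢
    rw [Fin.sum_univ_succ]
    simp only [Fin.cons_zero, Fin.cons_succ]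
    unfold minus at h3
    by_cases h4 : M u = v
    · rw [if_pos h4] at h3 ⊢
      have h5 := hM.2 u
      rw [h4] at h5
      omega
    · rw [if_neg h4] at h3 ⊢
      omega

theorem pc_ten (k : ℕ) : ∀ p : V → V → ℕ, Fintype.card V ≤ 10 → RGraph (k + 2) p → PC k p := by
  induction k with
  | zero => intro p _ _; exact ⟨fun i => i.elim0, fun i => i.elim0, fun u v => by simp⟩
  | succ k ih =>
    intro p hcard hp
    by_cases hc8 : Fintype.card V ≤ 8
    · exact pc_of_cover (W315.LB.eight' V _ p hc8 hp) (by omega)
    have hVe : Even (Fintype.card V) := by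
      by_contra hodd
      have := hp.odd univ (by simpa using hodd)
      simp [H76FC.cut] at this
    have hV : Fintype.card V = 10 := by
      obtain ⟨m, hm⟩ := hVe
      omega
    by_cases hnt : NoTight (k + 1 + 2) p
    · by_cases hall : AllBad (k + 1 + 2) p
      · have h3 := allbad_three transport H76TW.pm (uncross badCompl) badCompl indep pentagon switch1
          switch2 (by omega) hV hp hnt hall
        have hk : k = 0 := by omega
        subst hk
        obtain ⟨M, hM1, hM2⟩ := H76TW.pm V _ p (by omega) hp
        exact pc_add ⟨hM1, hM2⟩ ⟨fun i => i.elim0, fun i => i.elim0, fun u v => by simp⟩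
      · unfold AllBad at hall
        push Not at hall
        obtain ⟨M, hM, hnb⟩ := hall
        have h1 := remove V _ p M hV (by omega) hp hnt hM hnb
        exact pc_add hM (ih (minus p M) hcard h1)
    · unfold NoTight at hnt
      push Not at hnt
      obtain ⟨X, hX, hc, h1, h2⟩ := hnt
      refine pc_of_cover (tight_step (k := 1) transport (tight enum distribute matchFib glue) p
        (by omega) hp hX hc h1 h2 ?_) (by omega)
      intro W _ _ q hW hq
      have hWe : Fintype.card W ≤ 8 := by
        by_contra h
        have hodd : ¬ Even (Fintype.card W) := by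
          intro he
          obtain ⟨m, hm⟩ := he
          omega
        have := hq.odd univ (by simpa using hodd)
        simp [H76FC.cut] at this
      exact W315.LB.eight' W _ q hWe hq

end Pool.Agent.X24.RZ
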