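import Pool.Agent.X24.RZ.Expand
import Pool.Agent.X24.RZ.Ten

/-!
# Partitions into postman joins from disjoint perfect matchings
-/

set_option autoImplicit false
set_option linter.unusedSectionVars false

namespace Pool.Agent.X24.RZ

open Finset Pool.Agent.H185F
open Pool.Agent.H239R2.Cover (ecut mem_ecut)

variable {V E : Type} [Fintype V] [DecidableEq V] [Fintype E] [DecidableEq E]

/-- an embedding with prescribed fibres -/
theorem exists_inj (I I' L : Type) [Fintype I] [Fintype I'] [DecidableEq L] (a : I → L) (b : I' → L)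
    (h : ∀ x, (univ.filter fun i => b i = x).card ≤ (univ.filter fun i => a i = x).card) :
    ∃ φ : I' → I, Function.Injective φ ∧ ∀ q, a (φ q) = b q := by
  classical
  have h1 : ∀ x, Nonempty ({q // b q = x} ↪ {e // a e = x}) := by
    intro x
    apply Function.Embedding.nonempty_of_card_le
    rw [Fintype.card_subtype, Fintype.card_subtype]
    exact h x
  let f : ∀ x, {q // b q = x} ↪ {e // a e = x} := fun x => (h1 x).some
  have key : ∀ (x : L) (q : I') (hx : b q = x), (f x).toFun ⟨q, hx⟩ = ⟨((f (b q)).toFun ⟨q, rfl⟩).1,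
      ((f (b q)).toFun ⟨q, rfl⟩).2.trans hx⟩ := by
    rintro x q rfl
    rfl
  refine ⟨fun q => ((f (b q)).toFun ⟨q, rfl⟩).1, ?_, fun q => ((f (b q)).toFun ⟨q, rfl⟩).2⟩
  intro q q' hqq
  have hqq' : ((f (b q)).toFun ⟨q, rfl⟩).1 = ((f (b q')).toFun ⟨q', rfl⟩).1 := hqq
  have h2 : b q' = b q := by
    rw [← ((f (b q)).toFun ⟨q, rfl⟩).2, ← ((f (b q')).toFun ⟨q', rfl⟩).2, hqq']
  have h3 := key (b q) q' h2
  have h4 : (f (b q)).toFun ⟨q', h2⟩ = (f (b q)).toFun ⟨q, rfl⟩ := by
    rw [h3]
    exact Subtype.ext hqq'.symm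
  have h5 := (f (b q)).inj' h4
  exact (congrArg Subtype.val h5).symm

theorem pack_of_partial {k : ℕ} (hk : Odd k) {s d : E → V}
    (hiso : ∀ y, Even (ecut s d {y}).card → ecut s d {y} = ∅) (M : Fin k → V → V)
    (hM1 : ∀ i u, M i (M i u) = u) (hM2 : ∀ u v, u ≠ v →
      (univ.filter fun i => M i u = v).card ≤ mu s d u v)
    (hfix : ∀ v ∈ odds s d, ∀ i, M i v ≠ v) : Pack k s d := by
  classical
  have hk0 : 0 < k := hk.pos
  let I : Type := {e : E // s e ≠ d e}
  let I' : Type := {q : Fin k × Sym2 V // ∃ u, q.2 = s(u, M q.1 u) ∧ M q.1 u ≠ u}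
  let a : I → Sym2 V := fun e => s(s e.1, d e.1)
  let b : I' → Sym2 V := fun q => q.1.2
  have hcards : ∀ z : Sym2 V, (univ.filter fun i : I' => b i = z).card ≤
      (univ.filter fun i : I => a i = z).card := by
    intro z
    induction z using Sym2.inductionOn with
    | _ u v =>
    by_cases huv : u = v
    · subst huv
      have e2 : (univ.filter fun i : I' => b i = s(u, u)) = ∅ := by
        rw [filter_eq_empty_iff]
        rintro ⟨⟨i, z⟩, w, hw, hne⟩ _ hz
        change z = s(u, u) at hz
        change z = s(w, M i w) at hw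
        rw [hz, Sym2.eq_iff] at hw
        rcases hw with ⟨h1, h2⟩ | ⟨h1, h2⟩
        · exact hne (h2.symm.trans h1)
        · exact hne (h1.symm.trans h2)
      rw [e2]
      exact Nat.zero_le _
    · have h1 : (univ.filter fun i : I => a i = s(u, v)).card = mu s d u v := by
        unfold mu
        rw [if_neg huv]
        refine card_bij (fun e _ => e.1) ?_ ?_ ?_
        · rintro e he
          have h2 : s(s e.1, d e.1) = s(u, v) := (mem_filter.1 he).2
          rw [Sym2.eq_iff] at h2
          exact mem_filter.2 ⟨mem_univ _, h2⟩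
        · intro e _ e' _ h
          exact Subtype.ext h
        · intro e he
          have h2 := (mem_filter.1 he).2
          have h3 : s e ≠ d e := by
            rcases h2 with ⟨h4, h5⟩ | ⟨h4, h5⟩
            · rw [h4, h5]; exact huv
            · rw [h4, h5]; exact fun h => huv h.symm
          exact ⟨⟨e, h3⟩, mem_filter.2 ⟨mem_univ _, Sym2.eq_iff.2 h2⟩, rfl⟩
      rw [h1]
      refine le_trans (le_of_eq ?_) (hM2 u v huv)
      symm
      refine card_bij (fun i hi => (⟨(i, s(u, v)), u, by rw [(mem_filter.1 hi).2],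
        by rw [(mem_filter.1 hi).2]; exact fun h => huv h.symm⟩ : I')) ?_ ?_ ?_
      · intro i _
        exact mem_filter.2 ⟨mem_univ _, rfl⟩
      · intro i _ j _ h
        exact congrArg (fun q : I' => q.1.1) h
      · rintro ⟨⟨i, z⟩, w, hw, hne⟩ hz
        have hz' : z = s(u, v) := (mem_filter.1 hz).2
        subst hz'
        change s(u, v) = s(w, M i w) at hw
        rw [Sym2.eq_iff] at hw
        have h3 : M i u = v := by
          rcases hw with ⟨h4, h5⟩ | ⟨h4, h5⟩
          · rw [h4, h5]
          · rw [h4, hM1, h5]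
        exact ⟨i, mem_filter.2 ⟨mem_univ _, h3⟩, rfl⟩
  obtain ⟨φ, hinj, hφ⟩ := exists_inj I I' (Sym2 V) a b hcards
  let c : E → Fin k := fun e => if h : ∃ q : I', (φ q).1 = e then h.choose.1.1 else ⟨0, hk0⟩
  have hcφ : ∀ q : I', c (φ q).1 = q.1.1 := by
    intro q
    have h : ∃ q' : I', (φ q').1 = (φ q).1 := ⟨q, rfl⟩
    have h1 : c (φ q).1 = h.choose.1.1 := dif_pos h
    rw [h1]
    have h2 : h.choose = q := hinj (Subtype.ext h.choose_spec)
    rw [h2]
  have hc0 : ∀ e, c e ≠ ⟨0, hk0⟩ → ∃ q : I', (φ q).1 = e := by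
    intro e he
    by_contra h
    exact he (dif_neg h)
  -- colours different from `0`
  have hone : ∀ v ∈ odds s d, ∀ i, i ≠ ⟨0, hk0⟩ →
      ∑ g ∈ ecut s d {v}, (if c g = i then (1 : ZMod 2) else 0) = 1 := by
    intro v hv i hi
    have hne := hfix v hv i
    let q : I' := ⟨(i, s(v, M i v)), v, rfl, hne⟩
    have h1 : s(s (φ q).1, d (φ q).1) = s(v, M i v) := hφ q
    have hmem : (φ q).1 ∈ ecut s d {v} := by
      rw [mem_ecut, mem_singleton, mem_singleton]
      rw [Sym2.eq_iff] at h1
      rcases h1 with ⟨h2, h3⟩ | ⟨h2, h3⟩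
      · rw [h2, h3]
        exact fun h => hne (h.1 rfl)
      · rw [h2, h3]
        exact fun h => hne (h.2 rfl)
    rw [sum_eq_single_of_mem (φ q).1 hmem]
    · rw [if_pos (hcφ q)]
    · intro e he hne2
      rw [if_neg]
      intro hce
      apply hne2
      obtain ⟨q', hq'⟩ := hc0 e (by rw [hce]; exact hi)
      subst hq'
      rw [hcφ] at hce
      congr 2
      apply Subtype.ext
      refine Prod.ext hce ?_
      -- the pair
      have h3 : s(s (φ q').1, d (φ q').1) = q'.1.2 := hφ q'
      obtain ⟨w, hw, -⟩ := q'.2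
      rw [hce] at hw
      rw [mem_ecut, mem_singleton, mem_singleton] at he
      have h4 : v = w ∨ v = M i w := by
        have h5 : s (φ q').1 = v ∨ d (φ q').1 = v := by
          by_contra h5
          push Not at h5
          exact he ⟨fun h => absurd h h5.1, fun h => absurd h h5.2⟩
        rw [← h3, Sym2.eq_iff] at hw
        rcases hw with ⟨h6, h7⟩ | ⟨h6, h7⟩ <;> rcases h5 with h5 | h5
        · exact Or.inl (h5.symm.trans h6)
        · exact Or.inr (h5.symm.trans h7)
        · exact Or.inr (h5.symm.trans h6)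
        · exact Or.inl (h5.symm.trans h7)
      show q'.1.2 = s(v, M i v)
      rw [hw]
      rcases h4 with rfl | rfl
      · rfl
      · rw [hM1, Sym2.eq_swap]
  refine ⟨c, fun v i => ?_⟩
  rw [sum_hh, sum_hh (fun _ => 1)]
  by_cases hv : v ∈ odds s d
  · have hvodd := (mem_filter.1 hv).2
    have hR : ∑ g ∈ ecut s d {v}, (1 : ZMod 2) = 1 := by
      rw [sum_const, nsmul_eq_mul, mul_one]
      exact (ZMod.natCast_eq_one_iff_odd).2 hvodd
    rw [hR]
    by_cases hi : i = ⟨0, hk0⟩
    · subst hi
      have h1 : ∑ j, ∑ g ∈ ecut s d {v}, (if c g = j then (1 : ZMod 2) else 0) = 1 := by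
        rw [sum_comm]
        refine Eq.trans (sum_congr rfl fun g _ => ?_) hR
        rw [sum_ite_eq, if_pos (mem_univ _)]
      rw [← add_sum_erase univ _ (mem_univ (⟨0, hk0⟩ : Fin k)),
        sum_congr rfl fun j hj => hone v hv j (mem_erase.1 hj).1, sum_const, card_erase_of_mem
        (mem_univ _), card_univ, Fintype.card_fin, nsmul_eq_mul, mul_one] at h1
      have h2 : ((k - 1 : ℕ) : ZMod 2) = 0 := by
        rw [ZMod.natCast_eq_zero_iff_even]
        obtain ⟨m, hm⟩ := hk
        exact ⟨m, by omega⟩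
      rw [h2, add_zero] at h1
      exact h1
    · exact hone v hv i hi
  · have h1 : ecut s d {v} = ∅ := by
      apply hiso
      rw [← Nat.not_odd_iff_even]
      exact fun h => hv (mem_filter.2 ⟨mem_univ _, h⟩)
    rw [h1, sum_empty, sum_empty]

/-- at most ten vertices of odd degree, all of degree `r` -/
theorem base10 {r : ℕ} (hr : Odd r) (hr3 : 3 ≤ r) (s d : E → V) (hcon : OddConn r s d)
    (hreg : Reg r 10 s d) (hiso : ∀ y, Even (ecut s d {y}).card → ecut s d {y} = ∅) :
    Pack (r - 2) s d := by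
  classical
  have h1 := rg hr hcon hreg hiso
  obtain ⟨h2, -⟩ := H76TW.restr V r (mu s d) (odds s d) h1
  have h4 : Fintype.card {x // x ∈ odds s d} ≤ 10 := by
    rw [Fintype.card_coe]
    exact hreg.2
  obtain ⟨m, rfl⟩ : ∃ m, r = m + 2 := ⟨r - 2, by omega⟩
  obtain ⟨N, n1, n2⟩ := pc_ten m _ h4 h2
  have hm : Odd m := by
    obtain ⟨a, ha⟩ := hr
    exact ⟨a - 1, by omega⟩
  rw [Nat.add_sub_cancel]
  refine pack_of_partial hm hiso (fun i v => if h : v ∈ odds s d then (N i ⟨v, h⟩).1 else v)
    ?_ ?_ ?_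
  · intro i u
    by_cases h : u ∈ odds s d
    · simp only [dif_pos h, (N i ⟨u, h⟩).2]
      rw [dif_pos trivial, (n1 i).1]
    · simp only [dif_neg h]
  · intro u v huv
    by_cases hu : u ∈ odds s d
    · by_cases hv : v ∈ odds s d
      · refine le_trans (le_of_eq ?_) (n2 ⟨u, hu⟩ ⟨v, hv⟩)
        congr 1
        ext i
        simp only [mem_filter, mem_univ, true_and, dif_pos hu]
        constructor
        · intro h
          exact Subtype.ext h
        · intro h
          rw [h]
      · rw [filter_eq_empty_iff.2, card_empty]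
        · exact Nat.zero_le _
        · intro i _
          simp only [dif_pos hu]
          intro h
          exact hv (h ▸ (N i ⟨u, hu⟩).2)
    · rw [filter_eq_empty_iff.2, card_empty]
      · exact Nat.zero_le _
      · intro i _
        simp only [dif_neg hu]
        exact huv
  · intro v hv i
    simp only [dif_pos hv]
    intro h
    exact (n1 i).2 ⟨v, hv⟩ (Subtype.ext h)

theorem pack10 (a : ℕ) (s d : E → V) (hcon : OddConn (2 * a + 3) s d)
    (hN : (univ.filter fun x => Odd (ecut s d {x}).card).card ≤ 10) : Pack (2 * a + 1) s d := by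
  have hr : Odd (2 * a + 3) := ⟨a + 1, by ring⟩
  exact pack_of hr (fun s d h1 h2 h3 => base10 hr (by omega) s d h1 h2 h3) s d hcon hN

end Pool.Agent.X24.RZ
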