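import Pool.Agent.X24.RZ.Part

/-!
# Three disjoint postman joins, one of them light
-/

set_option autoImplicit false
set_option linter.unusedSectionVars false

namespace Pool.Agent.X24.RZ

open Finset Pool.Agent.H185F
open Pool.Agent.H239R2.Cover (ecut mem_ecut)

variable {V E : Type} [Fintype V] [DecidableEq V] [Fintype E] [DecidableEq E]

/-- three disjoint postman joins, the first one of weight at most `w(E) / r` -/
def Sh (r : ℕ) (s d : E → V) : Prop :=
  ∀ w : E → ℝ, (∀ e, 0 ≤ w e) → ∃ c : E → Fin 3,
    (∀ v i, ∑ g, (if c g = i then (1 : ZMod 2) else 0) * hh s d g v = ∑ g, 1 * hh s d g v) ∧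
    (r : ℝ) * ∑ g, (if c g = 0 then w g else 0) ≤ ∑ g, w g

theorem sum_two (F G : E → ℝ) {e f : E} (hef : e ≠ f) (h1 : ∀ g, g ≠ e → g ≠ f → F g = G g)
    (h2 : F e + F f = G e + G f) : ∑ g, F g = ∑ g, G g := by
  rw [← sub_eq_zero, ← sum_sub_distrib, ← sum_subset (subset_univ {e, f}), sum_pair hef]
  · linarith
  · intro g _ hg
    rw [mem_insert, mem_singleton, not_or] at hg
    rw [h1 g hg.1 hg.2, sub_self]

theorem Sh.of_split {r : ℕ} {s d : E → V} {e f : E} (hef : e ≠ f) {y : V}
    (he : d e = y) (hf : s f = y) (h : Sh r s (sdst d e f y)) : Sh r s d := by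
  intro w hw
  obtain ⟨c, hc, hcw⟩ := h (fun g => if g = f then 0 else if g = e then w e + w f else w g) (by
    intro g
    show (0 : ℝ) ≤ if g = f then 0 else if g = e then w e + w f else w g
    split_ifs
    · exact le_rfl
    · exact add_nonneg (hw e) (hw f)
    · exact hw g)
  refine ⟨fun g => if g = f then c e else c g, fun v i => ?_, ?_⟩
  · rw [split_sum (fun g => if (if g = f then c e else c g) = i then (1 : ZMod 2) else 0)
      (fun g => if c g = i then (1 : ZMod 2) else 0) s d e f hef y he hf
      (fun g hg => by simp only [if_neg hg]) (by simp only [if_true]) v, hc v i]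
    exact (split_sum (fun _ => 1) (fun _ => 1) s d e f hef y he hf (fun _ _ => rfl) rfl v).symm
  · have e1 : ∑ g, (if (if g = f then c e else c g) = 0 then w g else 0) =
        ∑ g, (if c g = 0 then (if g = f then 0 else if g = e then w e + w f else w g) else 0) := by
      refine sum_two _ _ hef (fun g h1 h2 => ?_) ?_
      · simp only [if_neg h1, if_neg h2]
      · simp only [if_neg hef, if_true]
        by_cases h3 : c e = 0 <;> by_cases h4 : c f = 0 <;> simp [h3, h4]
    have e2 : ∑ g, w g = ∑ g, (if g = f then 0 else if g = e then w e + w f else w g) := by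
      refine sum_two _ _ hef (fun g h1 h2 => ?_) ?_
      · simp only [if_neg h1, if_neg h2]
      · simp only [if_neg hef, if_true]
        ring
    show (r : ℝ) * ∑ g, (if (if g = f then c e else c g) = 0 then w g else 0) ≤ ∑ g, w g
    rw [e1, e2]
    exact hcw

theorem Sh.of_flip {r : ℕ} {s d : E → V} (F : Finset E)
    (h : Sh r (rsrc F s d) (rsrc F d s)) : Sh r s d := by
  have h1 : ∀ g v, hh (rsrc F s d) (rsrc F d s) g v = hh s d g v := by
    intro g v
    unfold hh rsrc
    by_cases hg : g ∈ F
    · simp only [hg, if_true]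
      exact add_comm _ _
    · simp only [hg, if_false]
  intro w hw
  obtain ⟨c, hc, hcw⟩ := h w hw
  refine ⟨c, fun v i => ?_, hcw⟩
  have := hc v i
  simp only [h1] at this
  exact this

/-- **Splitting off the vertices of even degree.** -/
theorem reduce' (r : ℕ) (hr : Odd r) (N k : ℕ)
    (hbase : ∀ s d : E → V, OddConn r s d → Reg r N s d →
      (∀ y, Even (ecut s d {y}).card → ecut s d {y} = ∅) → Sh k s d) :
    ∀ (m : ℕ) (s d : E → V), nl s d ≤ m → OddConn r s d → Reg r N s d → Sh k s d := by
  classical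
  intro m
  induction m using Nat.strong_induction_on with
  | _ m ih =>
  intro src dst hm hcon hI
  by_cases hev : ∃ y, Even (ecut src dst {y}).card ∧ (ecut src dst {y}).Nonempty
  · obtain ⟨y, hy, e, he⟩ := hev
    rw [mem_ecut] at he
    simp only [Finset.mem_singleton] at he
    obtain ⟨F0, h1, h2⟩ : ∃ F0 : Finset E, rsrc F0 dst src e = y ∧ rsrc F0 src dst e ≠ y := by
      by_cases hd : dst e = y
      · refine ⟨∅, by simpa [rsrc] using hd, ?_⟩
        have : src e ≠ y := fun h => he ⟨fun _ => hd, fun _ => h⟩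
        simpa [rsrc] using this
      · have hs : src e = y := by
          by_contra hs
          exact he ⟨fun h => absurd h hs, fun h => absurd h hd⟩
        exact ⟨{e}, by simpa [rsrc] using hs, by simpa [rsrc] using hd⟩
    have hcon1 : OddConn r (rsrc F0 src dst) (rsrc F0 dst src) := by
      intro X hX
      rw [ecut_flip] at hX ⊢
      exact hcon X hX
    have hI1 := hI.flip F0
    have hy1 : Even (ecut (rsrc F0 src dst) (rsrc F0 dst src) {y}).card := by
      rw [ecut_flip]; exact hy
    obtain ⟨f, F, hfe, heF, hf1, hf2, he1, hcon2⟩ :=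
      exists_admissible r hr _ _ hcon1 y hy1 e h1 h2
    have hI2 := hI1.flip F
    have hy2 : Even (ecut (rsrc F (rsrc F0 src dst) (rsrc F0 dst src))
        (rsrc F (rsrc F0 dst src) (rsrc F0 src dst)) {y}).card := by
      rw [ecut_flip]; exact hy1
    have hnl1 : nl (rsrc F (rsrc F0 src dst) (rsrc F0 dst src))
        (rsrc F (rsrc F0 dst src) (rsrc F0 src dst)) = nl src dst := by
      rw [nl_flip, nl_flip]
    have hse : rsrc F (rsrc F0 src dst) (rsrc F0 dst src) e ≠ y := by
      simp only [rsrc, if_neg heF] at h2 ⊢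
      exact h2
    have hlt := nl_split _ _ e f hfe.symm y he1 hf1 hse hf2
    rw [hnl1] at hlt
    have hI3 := hI2.split hfe.symm he1 hf1 hse hf2 hy2 hcon2
    have hgood := ih _ (lt_of_lt_of_le hlt hm) _ _ le_rfl hcon2 hI3
    exact ((hgood.of_split hfe.symm he1 hf1).of_flip F).of_flip F0
  · push Not at hev
    exact hbase src dst hcon hI fun y hy => by
      have := hev y hy
      simpa using this

/-- **Reduction.** -/
theorem sh_of {r N k : ℕ} (hr : Odd r)
    (hbase : ∀ s d : E ⊕ (V × Fin r) → V ⊕ V, OddConn r s d → Reg r N s d →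
      (∀ y, Even (ecut s d {y}).card → ecut s d {y} = ∅) → Sh k s d)
    (s d : E → V) (hcon : OddConn r s d)
    (hN : (univ.filter fun x => Odd (ecut s d {x}).card).card ≤ N) : Sh k s d := by
  intro w hw
  obtain ⟨c, hc, hcw⟩ := reduce' r hr N k (fun s d h1 h2 h3 => hbase s d h1 h2 h3) _
    (xs s r) (xd s d r) le_rfl (xcon hcon) (xreg hr hN) (Sum.elim w fun _ => 0) (by
      rintro (e | q)
      · exact hw e
      · exact le_rfl)
  refine ⟨fun e => c (.inl e), fun v i => ?_, ?_⟩
  · have h1 := xsum (s := s) (d := d) (fun g => if c g = i then (1 : ZMod 2) else 0) v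
    have h2 := xsum (s := s) (d := d) (r := r) (fun _ => 1) v
    rw [← h1, ← h2, hc (.inr v) i, hc (.inl v) i]
  · rw [Fintype.sum_sum_type, Fintype.sum_sum_type] at hcw
    simpa using hcw

/-- the lightest class of a partition into an odd number of postman joins -/
theorem sh_of_pack {r : ℕ} (hr : Odd r) (hr3 : 3 ≤ r) {s d : E → V} (h : Pack r s d) :
    Sh r s d := by
  obtain ⟨c, hc⟩ := h
  intro w _
  have : Nontrivial (Fin r) := Fin.nontrivial_iff_two_le.2 (by omega)
  have : Nonempty (Fin r) := ⟨⟨0, by omega⟩⟩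
  have hsum : ∑ i : Fin r, (r : ℝ) * ∑ g, (if c g = i then w g else 0) ≤
      ∑ _i : Fin r, ∑ g, w g := by
    rw [← mul_sum, sum_comm, sum_const, card_univ, Fintype.card_fin, nsmul_eq_mul]
    refine le_of_eq ?_
    congr 1
    refine sum_congr rfl fun g _ => ?_
    rw [sum_ite_eq, if_pos (mem_univ _)]
  obtain ⟨i0, -, hi0⟩ := exists_le_of_sum_le univ_nonempty hsum
  obtain ⟨i1, hi1⟩ := exists_ne i0
  refine ⟨fun g => if c g = i0 then 0 else if c g = i1 then 1 else 2, fun v i => ?_, ?_⟩
  · have h0 := hc v i0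
    have h1 := hc v i1
    have e0 : ∀ g, (if (if c g = i0 then (0 : Fin 3) else if c g = i1 then 1 else 2) = 0 then
        (1 : ZMod 2) else 0) = if c g = i0 then 1 else 0 := by
      intro g
      by_cases h2 : c g = i0 <;> by_cases h3 : c g = i1 <;> simp [h2, h3, hi1, hi1.symm]
    have e1 : ∀ g, (if (if c g = i0 then (0 : Fin 3) else if c g = i1 then 1 else 2) = 1 then
        (1 : ZMod 2) else 0) = if c g = i1 then 1 else 0 := by
      intro g
      by_cases h2 : c g = i0
      · simp [h2, hi1.symm]
      · by_cases h3 : c g = i1 <;> simp [h2, h3, hi1, hi1.symm]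
    have e2 : ∀ g, (if (if c g = i0 then (0 : Fin 3) else if c g = i1 then 1 else 2) = 2 then
        (1 : ZMod 2) else 0) = 1 - (if c g = i0 then 1 else 0) - (if c g = i1 then 1 else 0) := by
      intro g
      by_cases h2 : c g = i0
      · simp [h2, hi1.symm]
      · by_cases h3 : c g = i1 <;> simp [h2, h3, hi1, hi1.symm]
    fin_cases i
    · simp only [Fin.zero_eta, e0]
      exact h0
    · simp only [Fin.mk_one, e1]
      exact h1
    · have h5 : ∀ g, (if (if c g = i0 then (0 : Fin 3) else if c g = i1 then 1 else 2) =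
          (⟨2, by omega⟩ : Fin 3) then (1 : ZMod 2) else 0) =
          1 - (if c g = i0 then 1 else 0) - (if c g = i1 then 1 else 0) := e2
      simp only [h5, sub_mul, sum_sub_distrib]
      rw [h0, h1, sub_self, zero_sub]
      have h6 : ∀ x : ZMod 2, -x = x := by decide
      exact h6 _
  · refine le_trans (le_of_eq ?_) hi0
    congr 1
    refine sum_congr rfl fun g _ => ?_
    by_cases h2 : c g = i0 <;> by_cases h3 : c g = i1 <;> simp [h2, h3, hi1, hi1.symm]

theorem sh8 {r : ℕ} (hr : Odd r) (hr3 : 3 ≤ r) (s d : E → V) (hcon : OddConn r s d)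
    (hN : (univ.filter fun x => Odd (ecut s d {x}).card).card ≤ 8) : Sh r s d :=
  sh_of_pack hr hr3 (pack8 hr s d hcon hN)

end Pool.Agent.X24.RZ
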