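import Pool.Agent.H185F.Admissible

/-!
# Partitions into postman joins: splitting off the vertices of even degree
-/

set_option autoImplicit false
set_option linter.unusedSectionVars false

namespace Pool.Agent.X24.RZ

open Finset Pool.Agent.H185F
open Pool.Agent.H239R2.Cover (ecut mem_ecut)

variable {V E : Type} [Fintype V] [DecidableEq V] [Fintype E] [DecidableEq E]

/-- the parity of the number of ends of `g` at `v` -/
def hh (s d : E → V) (g : E) (v : V) : ZMod 2 :=
  (if s g = v then 1 else 0) + (if d g = v then 1 else 0)

/-- a partition of the edges into `k` postman joins -/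
def Pack (k : ℕ) (s d : E → V) : Prop :=
  ∃ c : E → Fin k, ∀ v i, ∑ g, (if c g = i then (1 : ZMod 2) else 0) * hh s d g v =
    ∑ g, 1 * hh s d g v

theorem split_sum (w w' : E → ZMod 2) (s d : E → V) (e f : E) (hef : e ≠ f) (y : V)
    (he : d e = y) (hf : s f = y) (h1 : ∀ g, g ≠ f → w g = w' g) (h2 : w f = w' e) (v : V) :
    ∑ g, w g * hh s d g v = ∑ g, w' g * hh s (sdst d e f y) g v := by
  rw [← sub_eq_zero, ← sum_sub_distrib, ← sum_subset (subset_univ {e, f}), sum_pair hef]
  · unfold hh
    rw [t5_f, t5_e d e f hef, he, hf, h1 e hef, h2]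
    have h3 : (2 : ZMod 2) = 0 := by decide
    generalize (if s e = v then (1 : ZMod 2) else 0) = A
    generalize (if y = v then (1 : ZMod 2) else 0) = Y
    generalize (if d f = v then (1 : ZMod 2) else 0) = D
    generalize w' e = a
    generalize w' f = b
    linear_combination (a * Y - b * Y) * h3
  · intro g _ hg
    rw [mem_insert, mem_singleton, not_or] at hg
    unfold hh
    rw [t5_g d e f y g hg.1 hg.2, h1 g hg.2, sub_self]

theorem Pack.of_split {k : ℕ} {s d : E → V} {e f : E} (hef : e ≠ f) {y : V}
    (he : d e = y) (hf : s f = y) (h : Pack k s (sdst d e f y)) : Pack k s d := by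
  obtain ⟨c, hc⟩ := h
  refine ⟨fun g => if g = f then c e else c g, fun v i => ?_⟩
  rw [split_sum (fun g => if (if g = f then c e else c g) = i then (1 : ZMod 2) else 0)
    (fun g => if c g = i then (1 : ZMod 2) else 0) s d e f hef y he hf
    (fun g hg => by simp only [if_neg hg]) (by simp only [if_true]) v, hc v i]
  exact (split_sum (fun _ => 1) (fun _ => 1) s d e f hef y he hf (fun _ _ => rfl) rfl v).symm

theorem Pack.of_flip {k : ℕ} {s d : E → V} (F : Finset E)
    (h : Pack k (rsrc F s d) (rsrc F d s)) : Pack k s d := by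
  obtain ⟨c, hc⟩ := h
  have h1 : ∀ g v, hh (rsrc F s d) (rsrc F d s) g v = hh s d g v := by
    intro g v
    unfold hh rsrc
    by_cases hg : g ∈ F
    · simp only [hg, if_true]
      exact add_comm _ _
    · simp only [hg, if_false]
  refine ⟨c, fun v i => ?_⟩
  have := hc v i
  simp only [h1] at this
  exact this

/-- the parity of the degrees does not change -/
theorem parity_split (s d : E → V) (e f : E) (hef : e ≠ f) (y : V)
    (he : d e = y) (hf : s f = y) (he' : s e ≠ y) (hf' : d f ≠ y) (x : V) :
    Odd (ecut s (sdst d e f y) {x}).card ↔ Odd (ecut s d {x}).card := by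
  by_cases hxy : x = y
  · subst hxy
    have h1 : (ecut s d {x}).card = (ecut s (sdst d e f x) {x}).card + 2 := by
      have e1 : (ecut s d {x}) = (ecut s (sdst d e f x) {x}) ∪ {e, f} := by
        ext g
        rw [mem_union, mem_ecut, mem_ecut, mem_insert, mem_singleton, mem_singleton,
          mem_singleton, mem_singleton]
        by_cases h1 : g = f
        · subst h1
          rw [t5_f]
          simp only [hf, or_true, iff_true]
          intro h
          exact hf' (h.1 trivial)
        · by_cases h2 : g = e
          · subst h2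
            simp only [he, true_or, or_true, iff_true]
            intro h
            exact he' h
          · rw [t5_g d e f x g h2 h1]
            simp [h1, h2]
      rw [e1, card_union_of_disjoint, card_pair hef]
      rw [disjoint_right]
      intro g hg
      rw [mem_insert, mem_singleton] at hg
      rw [mem_ecut, mem_singleton, mem_singleton, not_not]
      rcases hg with rfl | rfl
      · rw [t5_e d g f hef]
        exact ⟨fun h => absurd h he', fun h => absurd h hf'⟩
      · rw [t5_f, hf]
    rw [h1, Nat.odd_iff, Nat.odd_iff]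
    omega
  · have hy : y ∉ ({x} : Finset V) := by
      rw [mem_singleton]
      exact fun h => hxy h.symm
    rcases ecut_split_le s d e f hef y he hf {x} hy with ⟨-, h⟩ | ⟨-, h⟩
    · rw [Nat.odd_iff, Nat.odd_iff]
      omega
    · rw [h]

/-- the odd vertices have degree `r`, and there are at most `N` of them -/
def Reg (r N : ℕ) (s d : E → V) : Prop :=
  (∀ x, Odd (ecut s d {x}).card → (ecut s d {x}).card = r) ∧
    (univ.filter fun x => Odd (ecut s d {x}).card).card ≤ N

theorem Reg.flip {r N : ℕ} {s d : E → V} (F : Finset E) (h : Reg r N s d) :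
    Reg r N (rsrc F s d) (rsrc F d s) := by
  unfold Reg at h ⊢
  simp only [ecut_flip]
  exact h

theorem Reg.split {r N : ℕ} {s d : E → V} {e f : E} (hef : e ≠ f) {y : V}
    (he : d e = y) (hf : s f = y) (he' : s e ≠ y) (hf' : d f ≠ y)
    (hy : Even (ecut s d {y}).card) (hcon : OddConn r s (sdst d e f y)) (h : Reg r N s d) :
    Reg r N s (sdst d e f y) := by
  have hpar := parity_split s d e f hef y he hf he' hf'
  refine ⟨fun x hx => ?_, ?_⟩
  · have h1 := (hpar x).1 hx
    have h2 := h.1 x h1
    have h3 := hcon {x} hx
    have hxy : y ∉ ({x} : Finset V) := by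
      rw [mem_singleton]
      rintro rfl
      rw [← Nat.not_even_iff_odd] at h1
      exact h1 hy
    rcases ecut_split_le s d e f hef y he hf {x} hxy with ⟨-, h4⟩ | ⟨-, h4⟩
    · omega
    · omega
  · refine le_trans (le_of_eq ?_) h.2
    congr 1
    ext x
    simp only [mem_filter, mem_univ, true_and]
    exact hpar x

/-- **Splitting off the vertices of even degree.** -/
theorem reduce (r : ℕ) (hr : Odd r) (N k : ℕ)
    (hbase : ∀ s d : E → V, OddConn r s d → Reg r N s d →
      (∀ y, Even (ecut s d {y}).card → ecut s d {y} = ∅) → Pack k s d) :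
    ∀ (m : ℕ) (s d : E → V), nl s d ≤ m → OddConn r s d → Reg r N s d → Pack k s d := by
  classical
  intro m
  induction m using Nat.strong_induction_on with
  | _ m ih =>
  intro src dst hm hcon hI
  by_cases hev : ∃ y, Even (ecut src dst {y}).card ∧ (ecut src dst {y}).Nonempty
  · obtain ⟨y, hy, e, he⟩ := hev
    rw [mem_ecut] at he
    simp only [Finset.mem_singleton] at he
    obtain ⟨F0, h1, h2⟩ : ∃ F0 : Finset E, rsrc F0 dst src e = y ∧ rsrc F0 src dst e ≠ y := by
      by_cases hd : dst e = y
      · refine ⟨∅, by simpa [rsrc] using hd, ?_⟩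
        have : src e ≠ y := fun h => he ⟨fun _ => hd, fun _ => h⟩
        simpa [rsrc] using this
      · have hs : src e = y := by
          by_contra hs
          exact he ⟨fun h => absurd h hs, fun h => absurd h hd⟩
        exact ⟨{e}, by simpa [rsrc] using hs, by simpa [rsrc] using hd⟩
    have hcon1 : OddConn r (rsrc F0 src dst) (rsrc F0 dst src) := by
      intro X hX
      rw [ecut_flip] at hX ⊢
      exact hcon X hX
    have hI1 := hI.flip F0
    have hy1 : Even (ecut (rsrc F0 src dst) (rsrc F0 dst src) {y}).card := by
      rw [ecut_flip]; exact hy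
    obtain ⟨f, F, hfe, heF, hf1, hf2, he1, hcon2⟩ :=
      exists_admissible r hr _ _ hcon1 y hy1 e h1 h2
    have hI2 := hI1.flip F
    have hy2 : Even (ecut (rsrc F (rsrc F0 src dst) (rsrc F0 dst src))
        (rsrc F (rsrc F0 dst src) (rsrc F0 src dst)) {y}).card := by
      rw [ecut_flip]; exact hy1
    have hnl1 : nl (rsrc F (rsrc F0 src dst) (rsrc F0 dst src))
        (rsrc F (rsrc F0 dst src) (rsrc F0 src dst)) = nl src dst := by
      rw [nl_flip, nl_flip]
    have hse : rsrc F (rsrc F0 src dst) (rsrc F0 dst src) e ≠ y := by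
      simp only [rsrc, if_neg heF] at h2 ⊢
      exact h2
    have hlt := nl_split _ _ e f hfe.symm y he1 hf1 hse hf2
    rw [hnl1] at hlt
    have hI3 := hI2.split hfe.symm he1 hf1 hse hf2 hy2 hcon2
    have hgood := ih _ (lt_of_lt_of_le hlt hm) _ _ le_rfl hcon2 hI3
    exact ((hgood.of_split hfe.symm he1 hf1).of_flip F).of_flip F0
  · push Not at hev
    exact hbase src dst hcon hI fun y hy => by
      have := hev y hy
      simpa using this

end Pool.Agent.X24.RZ
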